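import Mathlib

/-!
Finite graphs of large chromatic number all of whose small subgraphs are bipartite, via iterated
arc digraphs of a transitive tournament.
-/

set_option autoImplicit false

namespace Pool.Agent.Helper63.Chrom

open Finset

/-- acyclic relations with out-degree at most one are two-colourable -/
theorem forest_two_color {X : Type*} [DecidableEq X] (Q : X → X → Prop) (ρ : X → ℕ)
    (hρ : ∀ x y, Q x y → ρ x < ρ y) (S : Finset X)
    (h1 : ∀ x ∈ S, ∀ y ∈ S, ∀ z ∈ S, Q x y → Q x z → y = z) :
    ∃ t : X → Bool, ∀ x ∈ S, ∀ y ∈ S, Q x y → t x ≠ t y := by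
  revert h1
  induction S using Finset.induction_on_min_value ρ with
  | empty => intro _; exact ⟨fun _ => true, by simp⟩
  | insert a s ha hmin ih =>
    intro h1
    obtain ⟨t, ht⟩ := ih (fun x hx y hy z hz => h1 x (mem_insert_of_mem hx) y
      (mem_insert_of_mem hy) z (mem_insert_of_mem hz))
    by_cases hex : ∃ b ∈ s, Q a b
    · obtain ⟨b, hb, hab⟩ := hex
      refine ⟨Function.update t a (!(t b)), ?_⟩
      intro x hx y hy hxy
      have hya : y ≠ a := by
        rintro rfl
        have h2 := hρ _ _ hxy
        rcases mem_insert.1 hx with rfl | hx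
        · exact absurd h2 (lt_irrefl _)
        · exact absurd h2 (not_lt.2 (hmin x hx))
      have hy' : y ∈ s := (mem_insert.1 hy).resolve_left hya
      rw [Function.update_of_ne hya]
      rcases mem_insert.1 hx with rfl | hx'
      · have : y = b := h1 x hx y hy b (mem_insert_of_mem hb) hxy hab
        subst this
        rw [Function.update_self]
        cases t y <;> decide
      · have hxa : x ≠ a := by rintro rfl; exact ha hx'
        rw [Function.update_of_ne hxa]
        exact ht x hx' y hy' hxy
    · refine ⟨t, ?_⟩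
      intro x hx y hy hxy
      have hya : y ≠ a := by
        rintro rfl
        have h2 := hρ _ _ hxy
        rcases mem_insert.1 hx with rfl | hx
        · exact absurd h2 (lt_irrefl _)
        · exact absurd h2 (not_lt.2 (hmin x hx))
      have hy' : y ∈ s := (mem_insert.1 hy).resolve_left hya
      rcases mem_insert.1 hx with rfl | hx'
      · exact absurd ⟨y, hy', hxy⟩ hex
      · exact ht x hx' y hy' hxy

theorem exists_digraph (h : ℕ) : ∀ C : ℕ, ∃ (V : Type) (_ : Fintype V) (R : V → V → Prop)
    (ρ : V → ℕ), (∀ x y, R x y → ρ x < ρ y) ∧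
      (¬ ∃ f : V → Fin C, ∀ x y, R x y → f x ≠ f y) ∧
      (∀ S : Finset V, S.card ≤ h → ∃ t : V → Bool, ∀ x ∈ S, ∀ y ∈ S, R x y → t x ≠ t y) := by
  induction h with
  | zero =>
    intro C
    refine ⟨Fin (C + 1), inferInstance, fun x y => x < y, fun x => x.val, fun x y h => h, ?_, ?_⟩
    · rintro ⟨f, hf⟩
      obtain ⟨x, y, hxy, hfxy⟩ := Fintype.exists_ne_map_eq_of_card_lt f (by simp)
      rcases lt_or_gt_of_ne hxy with h | h
      · exact hf x y h hfxy
      · exact hf y x h hfxy.symm
    · intro S hS
      have : S = ∅ := Finset.card_eq_zero.1 (by omega)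
      subst this
      exact ⟨fun _ => true, by simp⟩
  | succ h ih =>
    intro C
    classical
    obtain ⟨V, _, R, ρ, hρ, hcol, hloc⟩ := ih (2 ^ C)
    refine ⟨{e : V × V // R e.1 e.2}, inferInstance, fun e e' => e.1.2 = e'.1.1,
      fun e => ρ e.1.1, ?_, ?_, ?_⟩
    · intro e e' hee'
      have := hρ _ _ e.2
      rwa [hee'] at this
    · rintro ⟨f, hf⟩
      apply hcol
      have hcard : Fintype.card (Finset (Fin C)) = 2 ^ C := by simp
      let E := Fintype.equivFinOfCardEq hcard
      refine ⟨fun x => E (univ.filter (fun c => ∃ y, ∃ h : R x y, f ⟨(x, y), h⟩ = c)), ?_⟩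
      intro x y hxy heq
      have heq' := E.injective heq
      have hmem : f ⟨(x, y), hxy⟩ ∈ univ.filter (fun c => ∃ z, ∃ h : R x z, f ⟨(x, z), h⟩ = c) := by
        simp only [mem_filter, mem_univ, true_and]
        exact ⟨y, hxy, rfl⟩
      rw [heq'] at hmem
      simp only [mem_filter, mem_univ, true_and] at hmem
      obtain ⟨z, hyz, hz⟩ := hmem
      exact hf ⟨(x, y), hxy⟩ ⟨(y, z), hyz⟩ rfl hz.symm
    · intro S hS
      by_cases hinj : Set.InjOn (fun e : {e : V × V // R e.1 e.2} => e.1.1) (S : Set _)
      · apply forest_two_color _ (fun e : {e : V × V // R e.1 e.2} => ρ e.1.1)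
        · intro e e' hee'
          have := hρ _ _ e.2
          rwa [hee'] at this
        · intro x hx y hy z hz hxy hxz
          apply hinj hy hz
          exact hxy.symm.trans hxz
      · have hcard : (S.image (fun e : {e : V × V // R e.1 e.2} => e.1.1)).card ≤ h := by
          have h1 := Finset.card_image_le (s := S) (f := fun e : {e : V × V // R e.1 e.2} => e.1.1)
          have h2 : (S.image (fun e : {e : V × V // R e.1 e.2} => e.1.1)).card ≠ S.card := by
            intro h3
            exact hinj (Finset.card_image_iff.1 h3)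
          omega
        obtain ⟨t, ht⟩ := hloc _ hcard
        refine ⟨fun e => t e.1.1, ?_⟩
        intro x hx y hy hxy
        apply ht _ (mem_image_of_mem _ hx) _ (mem_image_of_mem _ hy)
        have := x.2
        rwa [hxy] at this

/-- the version on `Fin k` -/
theorem exists_graph (h C : ℕ) : ∃ (k : ℕ) (R : Fin k → Fin k → Prop),
    (∀ x, ¬ R x x) ∧ (¬ ∃ f : Fin k → Fin C, ∀ x y, R x y → f x ≠ f y) ∧
      (∀ S : Finset (Fin k), S.card ≤ h → ∃ t : Fin k → Bool,
        ∀ x ∈ S, ∀ y ∈ S, R x y → t x ≠ t y) := by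
  classical
  obtain ⟨V, _, R, ρ, hρ, hcol, hloc⟩ := exists_digraph h C
  let E := Fintype.equivFin V
  refine ⟨Fintype.card V, fun x y => R (E.symm x) (E.symm y), ?_, ?_, ?_⟩
  · intro x hx
    exact absurd (hρ _ _ hx) (lt_irrefl _)
  · rintro ⟨f, hf⟩
    apply hcol
    refine ⟨fun x => f (E x), ?_⟩
    intro x y hxy
    apply hf
    simpa using hxy
  · intro S hS
    obtain ⟨t, ht⟩ := hloc (S.map E.symm.toEmbedding) (by simpa using hS)
    refine ⟨fun x => t (E.symm x), ?_⟩
    intro x hx y hy hxy
    exact ht _ (mem_map_of_mem _ hx) _ (mem_map_of_mem _ hy) hxy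

end Pool.Agent.Helper63.Chrom
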