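import Mathlib

/-!
Expectations over a random subset of a finite set (every element kept independently with
probability `p`), as finite sums.
-/

set_option autoImplicit false
set_option linter.unusedSectionVars false

namespace Pool.Agent.Helper63.Chrom

open Finset

variable {E : Type*} [DecidableEq E]

/-- expectation of `f` over the `p`-random subset of `D` -/
noncomputable def EE (p : ℝ) (D : Finset E) (f : Finset E → ℝ) : ℝ :=
  ∑ S ∈ D.powerset, p ^ S.card * (1 - p) ^ (D.card - S.card) * f S

theorem EE_empty (p : ℝ) (f : Finset E → ℝ) : EE p ∅ f = f ∅ := by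
  simp [EE]

theorem EE_insert (p : ℝ) {D : Finset E} {e : E} (he : e ∉ D) (f : Finset E → ℝ) :
    EE p (insert e D) f = p * EE p D (fun S => f (insert e S)) + (1 - p) * EE p D f := by
  unfold EE
  rw [sum_powerset_insert he, add_comm, mul_sum, mul_sum]
  congr 1
  · apply sum_congr rfl
    intro S hS
    have hS' : S ⊆ D := mem_powerset.1 hS
    have he' : e ∉ S := fun h => he (hS' h)
    rw [card_insert_of_notMem he', card_insert_of_notMem he,
      show D.card + 1 - (S.card + 1) = D.card - S.card by omega]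
    ring
  · apply sum_congr rfl
    intro S hS
    have hS' : S ⊆ D := mem_powerset.1 hS
    have := card_le_card hS'
    rw [card_insert_of_notMem he, show D.card + 1 - S.card = (D.card - S.card) + 1 by omega]
    ring

theorem EE_congr {p : ℝ} {D : Finset E} {f g : Finset E → ℝ} (h : ∀ S, S ⊆ D → f S = g S) :
    EE p D f = EE p D g := by
  unfold EE
  apply sum_congr rfl
  intro S hS
  rw [h S (mem_powerset.1 hS)]

theorem EE_mono {p : ℝ} (hp : 0 ≤ p) (hp' : p ≤ 1) {D : Finset E} {f g : Finset E → ℝ}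
    (h : ∀ S, S ⊆ D → f S ≤ g S) : EE p D f ≤ EE p D g := by
  unfold EE
  apply sum_le_sum
  intro S hS
  have h1 : 0 ≤ 1 - p := by linarith
  apply mul_le_mul_of_nonneg_left (h S (mem_powerset.1 hS))
  positivity

theorem EE_nonneg {p : ℝ} (hp : 0 ≤ p) (hp' : p ≤ 1) {D : Finset E} {f : Finset E → ℝ}
    (h : ∀ S, S ⊆ D → 0 ≤ f S) : 0 ≤ EE p D f := by
  unfold EE
  apply sum_nonneg
  intro S hS
  have h1 : 0 ≤ 1 - p := by linarith
  have h2 := h S (mem_powerset.1 hS)
  positivity

theorem EE_const (p : ℝ) (D : Finset E) (c : ℝ) : EE p D (fun _ => c) = c := by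
  induction D using Finset.induction_on with
  | empty => rw [EE_empty]
  | insert e D he ih =>
    rw [EE_insert p he, ih]; ring

theorem EE_add (p : ℝ) (D : Finset E) (f g : Finset E → ℝ) :
    EE p D (fun S => f S + g S) = EE p D f + EE p D g := by
  unfold EE
  rw [← sum_add_distrib]
  apply sum_congr rfl
  intro S _
  ring

theorem EE_const_mul (p : ℝ) (D : Finset E) (c : ℝ) (f : Finset E → ℝ) :
    EE p D (fun S => c * f S) = c * EE p D f := by
  unfold EE
  rw [mul_sum]
  apply sum_congr rfl
  intro S _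
  ring

theorem EE_sum (p : ℝ) (D : Finset E) {ι : Type*} (s : Finset ι) (f : ι → Finset E → ℝ) :
    EE p D (fun S => ∑ i ∈ s, f i S) = ∑ i ∈ s, EE p D (f i) := by
  unfold EE
  rw [sum_comm]
  apply sum_congr rfl
  intro S _
  rw [mul_sum]

theorem EE_union (p : ℝ) {D₁ D₂ : Finset E} (h : Disjoint D₁ D₂) (f : Finset E → ℝ) :
    EE p (D₁ ∪ D₂) f = EE p D₁ (fun S => EE p D₂ (fun T => f (S ∪ T))) := by
  induction D₁ using Finset.induction_on generalizing f with
  | empty =>
    rw [EE_empty, empty_union]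
    simp only [empty_union]
  | insert e D he ih =>
    have h1 : Disjoint D D₂ := h.mono_left (subset_insert _ _)
    have h2 : e ∉ D₂ := fun h3 => (disjoint_left.1 h) (mem_insert_self _ _) h3
    have h3 : e ∉ D ∪ D₂ := by
      rw [mem_union]; rintro (h | h)
      · exact he h
      · exact h2 h
    rw [insert_union, EE_insert p h3, EE_insert p he, ih h1, ih h1]
    simp only [insert_union]

/-- an expectation only sees the relevant part of `D` -/
theorem EE_inter (p : ℝ) {D D' : Finset E} (h : D' ⊆ D) (f : Finset E → ℝ) :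
    EE p D (fun S => f (S ∩ D')) = EE p D' f := by
  have h1 : D = D' ∪ (D \ D') := (union_sdiff_of_subset h).symm
  have h2 : Disjoint D' (D \ D') := disjoint_sdiff
  rw [h1, EE_union p h2]
  apply EE_congr
  intro S hS
  have : ∀ T, T ⊆ D \ D' → f ((S ∪ T) ∩ D') = f S := by
    intro T hT
    congr 1
    ext x
    rw [mem_inter, mem_union]
    constructor
    · rintro ⟨h | h, h'⟩
      · exact h
      · exact absurd h' (mem_sdiff.1 (hT h)).2
    · intro h; exact ⟨Or.inl h, hS h⟩
  rw [EE_congr this, EE_const]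

/-- product formula for disjoint sets -/
theorem EE_prod (p : ℝ) {ι : Type*} [DecidableEq ι] (V : Finset ι) (D : ι → Finset E)
    (hD : ∀ i ∈ V, ∀ j ∈ V, i ≠ j → Disjoint (D i) (D j)) (φ : ι → Finset E → ℝ) :
    EE p (V.biUnion D) (fun S => ∏ i ∈ V, φ i (S ∩ D i)) = ∏ i ∈ V, EE p (D i) (φ i) := by
  induction V using Finset.induction_on with
  | empty => simp [EE_empty]
  | insert a V ha ih =>
    have hdisj : Disjoint (D a) (V.biUnion D) := by
      rw [disjoint_biUnion_right]
      intro i hi
      exact hD a (mem_insert_self _ _) i (mem_insert_of_mem hi) (by rintro rfl; exact ha hi)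
    have ih' := ih (fun i hi j hj => hD i (mem_insert_of_mem hi) j (mem_insert_of_mem hj))
    rw [biUnion_insert, EE_union p hdisj, prod_insert ha, ← ih']
    have key : ∀ S, S ⊆ D a → EE p (V.biUnion D) (fun T => ∏ i ∈ insert a V, φ i ((S ∪ T) ∩ D i))
        = EE p (V.biUnion D) (fun T => ∏ i ∈ V, φ i (T ∩ D i)) * φ a S := by
      intro S hS
      rw [mul_comm, ← EE_const_mul]
      apply EE_congr
      intro T hT
      rw [prod_insert ha]
      congr 1
      · congr 1
        ext x
        rw [mem_inter, mem_union]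
        constructor
        · rintro ⟨h | h, h'⟩
          · exact h
          · exact absurd (hT h) (disjoint_left.1 hdisj h')
        · intro h; exact ⟨Or.inl h, hS h⟩
      · apply prod_congr rfl
        intro i hi
        congr 1
        ext x
        rw [mem_inter, mem_inter, mem_union]
        constructor
        · rintro ⟨h | h, h'⟩
          · exact absurd (mem_biUnion.2 ⟨i, hi, h'⟩) (disjoint_left.1 hdisj (hS h))
          · exact ⟨h, h'⟩
        · rintro ⟨h, h'⟩; exact ⟨Or.inr h, h'⟩
    rw [EE_congr key]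
    rw [show (fun S => EE p (V.biUnion D) (fun T => ∏ i ∈ V, φ i (T ∩ D i)) * φ a S) =
      (fun S => EE p (V.biUnion D) (fun T => ∏ i ∈ V, φ i (T ∩ D i)) * (φ a) S) from rfl,
      EE_const_mul, mul_comm]

open Classical in
/-- probability of an event -/
noncomputable def PP (p : ℝ) (D : Finset E) (P : Finset E → Prop) : ℝ :=
  EE p D (fun S => if P S then 1 else 0)

theorem PP_nonneg {p : ℝ} (hp : 0 ≤ p) (hp' : p ≤ 1) (D : Finset E) (P : Finset E → Prop) :
    0 ≤ PP p D P := by
  unfold PP
  apply EE_nonneg hp hp'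
  intro S _
  split_ifs <;> norm_num

theorem PP_le_one {p : ℝ} (hp : 0 ≤ p) (hp' : p ≤ 1) (D : Finset E) (P : Finset E → Prop) :
    PP p D P ≤ 1 := by
  unfold PP
  calc _ ≤ EE p D (fun _ => (1 : ℝ)) := by
        apply EE_mono hp hp'
        intro S _
        split_ifs <;> norm_num
    _ = 1 := EE_const _ _ _

theorem PP_mono {p : ℝ} (hp : 0 ≤ p) (hp' : p ≤ 1) {D : Finset E} {P Q : Finset E → Prop}
    (h : ∀ S, S ⊆ D → P S → Q S) : PP p D P ≤ PP p D Q := by
  unfold PP
  apply EE_mono hp hp'
  intro S hS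
  by_cases h1 : P S
  · rw [if_pos h1, if_pos (h S hS h1)]
  · rw [if_neg h1]; split_ifs <;> norm_num

theorem PP_congr {p : ℝ} {D : Finset E} {P Q : Finset E → Prop}
    (h : ∀ S, S ⊆ D → (P S ↔ Q S)) : PP p D P = PP p D Q := by
  unfold PP
  apply EE_congr
  intro S hS
  by_cases h1 : P S
  · rw [if_pos h1, if_pos ((h S hS).1 h1)]
  · rw [if_neg h1, if_neg (fun h2 => h1 ((h S hS).2 h2))]

theorem prod_ite_forall {ι : Type*} (J : Finset ι) (P : ι → Prop) [DecidablePred P]
    [Decidable (∀ j ∈ J, P j)] :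
    (∏ j ∈ J, if P j then (1 : ℝ) else 0) = if ∀ j ∈ J, P j then 1 else 0 := by
  split_ifs with h
  · apply prod_eq_one
    intro j hj
    rw [if_pos (h j hj)]
  · push Not at h
    obtain ⟨j, hj, h⟩ := h
    exact prod_eq_zero hj (if_neg h)

/-- independence -/
theorem PP_prod (p : ℝ) {ι : Type*} [DecidableEq ι] (J : Finset ι) (D : ι → Finset E)
    (hD : ∀ i ∈ J, ∀ j ∈ J, i ≠ j → Disjoint (D i) (D j)) (P : ι → Finset E → Prop) :
    PP p (J.biUnion D) (fun S => ∀ j ∈ J, P j (S ∩ D j)) = ∏ j ∈ J, PP p (D j) (P j) := by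
  classical
  unfold PP
  rw [← EE_prod p J D hD]
  apply EE_congr
  intro S _
  rw [prod_ite_forall]
  congr 1

theorem PP_compl (p : ℝ) (D : Finset E) (P : Finset E → Prop) :
    PP p D (fun S => ¬ P S) = 1 - PP p D P := by
  classical
  have h : PP p D (fun S => ¬ P S) + PP p D P = EE p D (fun _ => 1) := by
    unfold PP
    rw [← EE_add]
    apply EE_congr
    intro S _
    by_cases h1 : P S <;> simp [h1]
  rw [EE_const] at h
  linarith

theorem PP_inter (p : ℝ) {D D' : Finset E} (h : D' ⊆ D) (P : Finset E → Prop) :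
    PP p D (fun S => P (S ∩ D')) = PP p D' P := by
  classical
  unfold PP
  exact EE_inter p h (fun S => if P S then 1 else 0)

/-- union bound -/
theorem PP_union_bound {p : ℝ} (hp : 0 ≤ p) (hp' : p ≤ 1) {D : Finset E} {ι : Type*}
    (s : Finset ι) (P : ι → Finset E → Prop) :
    PP p D (fun S => ∃ i ∈ s, P i S) ≤ ∑ i ∈ s, PP p D (P i) := by
  classical
  unfold PP
  rw [← EE_sum]
  apply EE_mono hp hp'
  intro S _
  split_ifs with h
  · obtain ⟨i, hi, h⟩ := h
    calc (1 : ℝ) = (if P i S then 1 else 0) := by rw [if_pos h]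
      _ ≤ _ := single_le_sum (f := fun i => if P i S then (1 : ℝ) else 0)
        (fun j _ => by split_ifs <;> norm_num) hi
  · apply sum_nonneg
    intro i _
    split_ifs <;> norm_num

theorem PP_or {p : ℝ} (hp : 0 ≤ p) (hp' : p ≤ 1) {D : Finset E} (P Q : Finset E → Prop) :
    PP p D (fun S => P S ∨ Q S) ≤ PP p D P + PP p D Q := by
  classical
  unfold PP
  rw [← EE_add]
  apply EE_mono hp hp'
  intro S _
  by_cases h1 : P S <;> by_cases h2 : Q S <;> simp [h1, h2]

open Classical in
/-- moment generating function of a sum of independent indicators -/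
theorem mgf (p : ℝ) {ι : Type*} [DecidableEq ι] (V : Finset ι) (D : ι → Finset E)
    (hD : ∀ i ∈ V, ∀ j ∈ V, i ≠ j → Disjoint (D i) (D j)) (P : ι → Finset E → Prop) (y : ℝ) :
    EE p (V.biUnion D) (fun S => y ^ (V.filter (fun i => P i (S ∩ D i))).card) =
      ∏ i ∈ V, (1 + (y - 1) * PP p (D i) (P i)) := by
  have h1 : ∀ S, S ⊆ V.biUnion D → y ^ (V.filter (fun i => P i (S ∩ D i))).card =
      ∏ i ∈ V, (fun i T => if P i T then y else 1) i (S ∩ D i) := by
    intro S _
    rw [← prod_const, prod_filter]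
  rw [EE_congr h1]
  have h2 := EE_prod p V D hD (fun i T => if P i T then y else 1)
  refine h2.trans ?_
  apply prod_congr rfl
  intro i _
  have h3 : 1 + (y - 1) * PP p (D i) (P i) = EE p (D i) (fun _ => 1) +
      EE p (D i) (fun S => (y - 1) * (if P i S then 1 else 0)) := by
    rw [EE_const, EE_const_mul]
    rfl
  rw [h3, ← EE_add]
  apply EE_congr
  intro S _
  by_cases h : P i S <;> simp [h]

open Classical in
/-- upper tail -/
theorem tail_upper {p : ℝ} (hp : 0 ≤ p) (hp' : p ≤ 1) {ι : Type*} [DecidableEq ι] (V : Finset ι)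
    (D : ι → Finset E) (hD : ∀ i ∈ V, ∀ j ∈ V, i ≠ j → Disjoint (D i) (D j))
    (P : ι → Finset E → Prop) {y q t : ℝ} (hy : 1 ≤ y)
    (hq : ∀ i ∈ V, PP p (D i) (P i) ≤ q) :
    PP p (V.biUnion D) (fun S => t ≤ ((V.filter (fun i => P i (S ∩ D i))).card : ℝ)) ≤
      Real.exp ((y - 1) * q * V.card - t * Real.log y) := by
  have hy0 : 0 < y := by linarith
  have h1 : PP p (V.biUnion D) (fun S => t ≤ ((V.filter (fun i => P i (S ∩ D i))).card : ℝ)) ≤
      Real.exp (- (t * Real.log y)) *
      EE p (V.biUnion D) (fun S => y ^ (V.filter (fun i => P i (S ∩ D i))).card) := by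
    rw [← EE_const_mul]
    unfold PP
    apply EE_mono hp hp'
    intro S _
    split_ifs with h
    · rw [← Real.exp_log (show 0 < y ^ _ from pow_pos hy0 _), ← Real.exp_add, Real.log_pow]
      rw [Real.one_le_exp_iff]
      have := mul_le_mul_of_nonneg_right h (Real.log_nonneg hy)
      linarith
    · positivity
  refine h1.trans ?_
  rw [mgf p V D hD, show (y - 1) * q * V.card - t * Real.log y =
    - (t * Real.log y) + (y - 1) * q * V.card by ring, Real.exp_add]
  apply mul_le_mul_of_nonneg_left _ (Real.exp_pos _).le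
  calc ∏ i ∈ V, (1 + (y - 1) * PP p (D i) (P i)) ≤ ∏ _i ∈ V, Real.exp ((y - 1) * q) := by
        apply prod_le_prod
        · intro i _
          have := PP_nonneg hp hp' (D i) (P i)
          have : 0 ≤ (y - 1) * PP p (D i) (P i) := mul_nonneg (by linarith) this
          linarith
        · intro i hi
          have h2 : (y - 1) * PP p (D i) (P i) ≤ (y - 1) * q :=
            mul_le_mul_of_nonneg_left (hq i hi) (by linarith)
          have h3 := Real.add_one_le_exp ((y - 1) * q)
          linarith
    _ = Real.exp ((y - 1) * q * V.card) := by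
        rw [prod_const, ← Real.exp_nat_mul]
        ring_nf

open Classical in
/-- lower tail -/
theorem tail_lower {p : ℝ} (hp : 0 ≤ p) (hp' : p ≤ 1) {ι : Type*} [DecidableEq ι] (V : Finset ι)
    (D : ι → Finset E) (hD : ∀ i ∈ V, ∀ j ∈ V, i ≠ j → Disjoint (D i) (D j))
    (P : ι → Finset E → Prop) {y q t : ℝ} (hy0 : 0 < y) (hy : y ≤ 1)
    (hq : ∀ i ∈ V, q ≤ PP p (D i) (P i)) :
    PP p (V.biUnion D) (fun S => ((V.filter (fun i => P i (S ∩ D i))).card : ℝ) ≤ t) ≤
      Real.exp (- ((1 - y) * q * V.card) - t * Real.log y) := by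
  have h1 : PP p (V.biUnion D) (fun S => ((V.filter (fun i => P i (S ∩ D i))).card : ℝ) ≤ t) ≤
      Real.exp (- (t * Real.log y)) *
      EE p (V.biUnion D) (fun S => y ^ (V.filter (fun i => P i (S ∩ D i))).card) := by
    rw [← EE_const_mul]
    unfold PP
    apply EE_mono hp hp'
    intro S _
    split_ifs with h
    · rw [← Real.exp_log (show 0 < y ^ _ from pow_pos hy0 _), ← Real.exp_add, Real.log_pow]
      rw [Real.one_le_exp_iff]
      have := mul_le_mul_of_nonpos_right h (Real.log_nonpos hy0.le hy)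
      linarith
    · positivity
  refine h1.trans ?_
  rw [mgf p V D hD, show - ((1 - y) * q * V.card) - t * Real.log y =
    - (t * Real.log y) + - ((1 - y) * q * V.card) by ring, Real.exp_add]
  apply mul_le_mul_of_nonneg_left _ (Real.exp_pos _).le
  calc ∏ i ∈ V, (1 + (y - 1) * PP p (D i) (P i)) ≤ ∏ _i ∈ V, Real.exp ((y - 1) * q) := by
        apply prod_le_prod
        · intro i _
          have h2 := PP_nonneg hp hp' (D i) (P i)
          have h3 := PP_le_one hp hp' (D i) (P i)
          nlinarith
        · intro i hi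
          have h2 : (y - 1) * PP p (D i) (P i) ≤ (y - 1) * q :=
            mul_le_mul_of_nonpos_left (hq i hi) (by linarith)
          have h3 := Real.add_one_le_exp ((y - 1) * q)
          linarith
    _ = Real.exp (- ((1 - y) * q * V.card)) := by
        rw [prod_const, ← Real.exp_nat_mul]
        ring_nf

/-- the probability that exactly `c` elements are kept, all of them in `D \ T` -/
theorem PP_card_eq (p : ℝ) (D T : Finset E) (hT : T ⊆ D) (c : ℕ) :
    PP p D (fun S => S.card = c ∧ Disjoint S T) =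
      ((D.card - T.card).choose c : ℝ) * p ^ c * (1 - p) ^ (D.card - c) := by
  classical
  have h1 : PP p D (fun S => S.card = c ∧ Disjoint S T) = ∑ S ∈ D.powerset,
      if S.card = c ∧ Disjoint S T then p ^ c * (1 - p) ^ (D.card - c) else 0 := by
    unfold PP EE
    apply sum_congr rfl
    intro S _
    beta_reduce
    by_cases h : S.card = c ∧ Disjoint S T
    · rw [if_pos h, if_pos h, h.1, mul_one]
    · rw [if_neg h, if_neg h, mul_zero]
  rw [h1, ← sum_filter, sum_const, nsmul_eq_mul]
  have h2 : (D.powerset.filter (fun S => S.card = c ∧ Disjoint S T)) = (D \ T).powersetCard c := by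
    ext S
    rw [mem_filter, mem_powerset, mem_powersetCard]
    constructor
    · rintro ⟨h1, h2, h3⟩
      exact ⟨fun x hx => mem_sdiff.2 ⟨h1 hx, disjoint_left.1 h3 hx⟩, h2⟩
    · rintro ⟨h1, h2⟩
      exact ⟨h1.trans sdiff_subset, h2,
        disjoint_left.2 (fun x hx => (mem_sdiff.1 (h1 hx)).2)⟩
  rw [h2, card_powersetCard, card_sdiff_of_subset hT]
  ring

end Pool.Agent.Helper63.Chrom
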