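import Mathlib
import Pool.Agent.Helper63.Chrom.Prob

/-!
One selection step: inside a fresh set `V` of `O(1/p)` vertices there is, with probability close to
one, a subset `Y` of prescribed size such that there are no bipartite holes between `Y` and each of
the previously selected sets.
-/

set_option autoImplicit false

namespace Pool.Agent.Helper63.Chrom

open Finset Classical

variable {n : ℕ}

/-- potential edges between `v` and `X` -/
noncomputable def ed (v : Fin n) (X : Finset (Fin n)) : Finset (Sym2 (Fin n)) :=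
  X.image (fun u => s(v, u))

theorem mem_ed {v : Fin n} {X : Finset (Fin n)} {e : Sym2 (Fin n)} :
    e ∈ ed v X ↔ ∃ u ∈ X, s(v, u) = e := by
  simp [ed]

theorem mem_ed' {v u : Fin n} {X : Finset (Fin n)} : s(v, u) ∈ ed v X ↔ u ∈ X := by
  rw [mem_ed]
  constructor
  · rintro ⟨w, hw, h⟩
    rw [Sym2.congr_right] at h
    rwa [← h]
  · intro h; exact ⟨u, h, rfl⟩

theorem card_ed (v : Fin n) (X : Finset (Fin n)) : (ed v X).card = X.card := by
  unfold ed
  apply card_image_of_injective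
  intro a b h
  exact Sym2.congr_right.1 h

theorem ed_mono {v : Fin n} {X Y : Finset (Fin n)} (h : X ⊆ Y) : ed v X ⊆ ed v Y :=
  image_subset_image h

theorem ed_disjoint_of_ne {v v' : Fin n} {X X' : Finset (Fin n)} (h : v ≠ v') (hv : v ∉ X') :
    Disjoint (ed v X) (ed v' X') := by
  rw [disjoint_left]
  intro e h1 h2
  rw [mem_ed] at h1 h2
  obtain ⟨u, hu, rfl⟩ := h1
  obtain ⟨u', hu', h3⟩ := h2
  rw [Sym2.eq_iff] at h3
  rcases h3 with ⟨h4, h5⟩ | ⟨h4, h5⟩
  · exact h h4.symm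
  · exact hv (h5 ▸ hu')

theorem ed_disjoint {v : Fin n} {X X' : Finset (Fin n)} (h : Disjoint X X') :
    Disjoint (ed v X) (ed v X') := by
  rw [disjoint_left]
  intro e h1 h2
  rw [mem_ed] at h1
  obtain ⟨u, hu, rfl⟩ := h1
  rw [mem_ed'] at h2
  exact disjoint_left.1 h hu h2

/-- no bipartite hole of size `s` -/
def HF (s : ℕ) (S : Finset (Sym2 (Fin n))) (X Y : Finset (Fin n)) : Prop :=
  ∀ T ⊆ X, ∀ T' ⊆ Y, T.card = s → T'.card = s → ∃ u ∈ T, ∃ v ∈ T', s(u, v) ∈ S

theorem HF_mono {s : ℕ} {S S' : Finset (Sym2 (Fin n))} (h : S ⊆ S') {X Y : Finset (Fin n)}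
    (hH : HF s S X Y) : HF s S' X Y := by
  intro T hT T' hT' h1 h2
  obtain ⟨u, hu, v, hv, h3⟩ := hH T hT T' hT' h1 h2
  exact ⟨u, hu, v, hv, h h3⟩

theorem HF_symm {s : ℕ} {S : Finset (Sym2 (Fin n))} {X Y : Finset (Fin n)}
    (hH : HF s S X Y) : HF s S Y X := by
  intro T hT T' hT' h1 h2
  obtain ⟨u, hu, v, hv, h3⟩ := hH T' hT' T hT h2 h1
  exact ⟨v, hv, u, hu, by rwa [Sym2.eq_swap]⟩

/-- `v` has exactly `c` neighbours in each of the `Z j` -/
def good {ι : Type*} (J : Finset ι) (Z : ι → Finset (Fin n)) (c : ℕ) (v : Fin n)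
    (S : Finset (Sym2 (Fin n))) : Prop := ∀ j ∈ J, (S ∩ ed v (Z j)).card = c

/-- the probability of one vertex being good for one set -/
noncomputable def g1 (p : ℝ) (C s c : ℕ) : ℝ :=
  ((C * s).choose c : ℝ) * p ^ c * (1 - p) ^ (C * s - c)

theorem PP_card_eq' (p : ℝ) (D : Finset (Sym2 (Fin n))) (c : ℕ) :
    PP p D (fun S => S.card = c ∧ Disjoint S ∅) =
      (D.card.choose c : ℝ) * p ^ c * (1 - p) ^ (D.card - c) := by
  rw [PP_card_eq p D ∅ (empty_subset _) c, card_empty, Nat.sub_zero]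

theorem PP_good {ι : Type*} [DecidableEq ι] {p : ℝ} {C s c : ℕ} (J : Finset ι)
    (Z : ι → Finset (Fin n)) (hZ : ∀ j ∈ J, (Z j).card = C * s)
    (hdisj : ∀ j ∈ J, ∀ j' ∈ J, j ≠ j' → Disjoint (Z j) (Z j')) (v : Fin n) :
    PP p (J.biUnion (fun j => ed v (Z j))) (good J Z c v) = g1 p C s c ^ J.card := by
  have h1 := PP_prod p J (fun j => ed v (Z j))
    (fun i hi j hj hij => ed_disjoint (hdisj i hi j hj hij))
    (fun j S => S.card = c ∧ Disjoint S ∅)
  have h2 : ∀ j ∈ J, PP p (ed v (Z j)) (fun S => S.card = c ∧ Disjoint S ∅) =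
      g1 p C s c := by
    intro j hj
    rw [PP_card_eq', card_ed, hZ j hj]
    rfl
  rw [prod_congr rfl h2, prod_const] at h1
  rw [← h1]
  apply PP_congr
  intro S _
  unfold good
  simp

theorem PP_miss {ι : Type*} [DecidableEq ι] {p : ℝ} {C s c : ℕ} (J : Finset ι)
    (Z : ι → Finset (Fin n)) (hZ : ∀ j ∈ J, (Z j).card = C * s)
    (hdisj : ∀ j ∈ J, ∀ j' ∈ J, j ≠ j' → Disjoint (Z j) (Z j')) (v : Fin n)
    {j₀ : ι} (hj₀ : j₀ ∈ J) {T : Finset (Fin n)} (hT : T ⊆ Z j₀) (hTs : T.card = s)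
    {q : ℝ} (hp : 0 ≤ p) (hp' : p ≤ 1)
    (hq : ((C * s - s).choose c : ℝ) ≤ q * ((C * s).choose c : ℝ)) :
    PP p (J.biUnion (fun j => ed v (Z j))) (fun S => good J Z c v S ∧ Disjoint S (ed v T)) ≤
      q * g1 p C s c ^ J.card := by
  have h1 := PP_prod p J (fun j => ed v (Z j))
    (fun i hi j hj hij => ed_disjoint (hdisj i hi j hj hij))
    (fun j S => S.card = c ∧ Disjoint S (if j = j₀ then ed v T else ∅))
  have h2 : ∀ j ∈ J.erase j₀, PP p (ed v (Z j))
      (fun S => S.card = c ∧ Disjoint S (if j = j₀ then ed v T else ∅)) =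
      g1 p C s c := by
    intro j hj
    have hj' := mem_erase.1 hj
    rw [if_neg hj'.1, PP_card_eq', card_ed, hZ j hj'.2]
    rfl
  have h3 : PP p (ed v (Z j₀))
      (fun S => S.card = c ∧ Disjoint S (if j₀ = j₀ then ed v T else ∅)) =
      ((C * s - s).choose c : ℝ) * p ^ c * (1 - p) ^ (C * s - c) := by
    rw [if_pos rfl, PP_card_eq p (ed v (Z j₀)) (ed v T) (ed_mono hT) c, card_ed, card_ed,
      hZ j₀ hj₀, hTs]
  rw [← mul_prod_erase J _ hj₀, prod_congr rfl h2, prod_const, h3, card_erase_of_mem hj₀] at h1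
  have h4 : PP p (J.biUnion (fun j => ed v (Z j))) (fun S => ∀ j ∈ J,
      (fun j S => S.card = c ∧ Disjoint S (if j = j₀ then ed v T else ∅)) j
      (S ∩ ed v (Z j))) =
      PP p (J.biUnion (fun j => ed v (Z j))) (fun S => good J Z c v S ∧ Disjoint S (ed v T)) := by
    apply PP_congr
    intro S _
    unfold good
    constructor
    · intro h
      refine ⟨fun j hj => (h j hj).1, ?_⟩
      have h5 := (h j₀ hj₀).2
      rw [if_pos rfl] at h5
      rw [disjoint_left] at h5 ⊢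
      intro e he he'
      exact h5 (mem_inter.2 ⟨he, ed_mono hT he'⟩) he'
    · rintro ⟨h5, h6⟩ j hj
      refine ⟨h5 j hj, ?_⟩
      split_ifs
      · exact h6.mono_left inter_subset_left
      · exact disjoint_empty_right _
  have h5 := h4.symm.trans h1
  rw [h5]
  have hJ : J.card = (J.card - 1) + 1 := by
    have := card_pos.2 ⟨j₀, hj₀⟩
    omega
  have h1p : 0 ≤ 1 - p := by linarith
  have hg : 0 ≤ g1 p C s c := by unfold g1; positivity
  calc ((C * s - s).choose c : ℝ) * p ^ c * (1 - p) ^ (C * s - c) * g1 p C s c ^ (J.card - 1)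
      ≤ (q * ((C * s).choose c : ℝ)) * p ^ c * (1 - p) ^ (C * s - c) * g1 p C s c ^ (J.card - 1) := by
        gcongr
    _ = q * (g1 p C s c ^ (J.card - 1) * g1 p C s c) := by
        conv_rhs => rw [mul_comm (g1 p C s c ^ (J.card - 1))]
        nth_rw 2 [g1]
        ring
    _ = q * g1 p C s c ^ J.card := by
        rw [← pow_succ, ← hJ]

end Pool.Agent.Helper63.Chrom
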