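import Mathlib
import Pool.Agent.Helper63.Chrom.Step

/-!
The selection step succeeds with probability close to one.
-/

set_option autoImplicit false

namespace Pool.Agent.Helper63.Chrom

open Finset Classical

variable {n : ℕ}

/-- success of the selection step -/
def Succ {ι : Type*} (C s : ℕ) (J : Finset ι) (Z : ι → Finset (Fin n)) (V : Finset (Fin n))
    (S : Finset (Sym2 (Fin n))) : Prop :=
  ∃ Y ⊆ V, Y.card = C * s ∧ ∀ j ∈ J, HF s S (Z j) Y

/-- the potential edges between `v` and the sets already chosen -/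
noncomputable def DD {ι : Type*} (J : Finset ι) (Z : ι → Finset (Fin n)) (v : Fin n) :
    Finset (Sym2 (Fin n)) := J.biUnion (fun j => ed v (Z j))

theorem DD_disjoint {ι : Type*} {J : Finset ι} {Z : ι → Finset (Fin n)} {V : Finset (Fin n)}
    (hV : ∀ j ∈ J, Disjoint V (Z j)) {v v' : Fin n} (hv : v ∈ V) (h : v ≠ v') :
    Disjoint (DD J Z v) (DD J Z v') := by
  unfold DD
  rw [disjoint_biUnion_left]
  intro j hj
  rw [disjoint_biUnion_right]
  intro j' hj'
  exact ed_disjoint_of_ne h (disjoint_left.1 (hV j' hj') hv)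

/-- deterministic part of the step -/
theorem succ_of {ι : Type*} {C s c : ℕ} {J : Finset ι}
    {Z : ι → Finset (Fin n)} {V : Finset (Fin n)} {S : Finset (Sym2 (Fin n))}
    (h1 : (C : ℝ) * s < ((V.filter (fun v => good J Z c v (S ∩ DD J Z v))).card : ℝ))
    (h2 : ∀ j ∈ J, ∀ T ∈ powersetCard s (Z j), ((V.filter (fun v => good J Z c v (S ∩ DD J Z v) ∧
      Disjoint (S ∩ DD J Z v) (ed v T))).card : ℝ) < s) : Succ C s J Z V S := by
  have h1' : C * s ≤ (V.filter (fun v => good J Z c v (S ∩ DD J Z v))).card := by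
    exact_mod_cast h1.le
  obtain ⟨Y, hY, hYc⟩ := exists_subset_card_eq h1'
  refine ⟨Y, hY.trans (filter_subset _ _), hYc, ?_⟩
  intro j hj T hT T' hT' hTc hTc'
  by_contra hcon
  push Not at hcon
  have h3 := h2 j hj T (mem_powersetCard.2 ⟨hT, hTc⟩)
  have h4 : T' ⊆ V.filter (fun v => good J Z c v (S ∩ DD J Z v) ∧
      Disjoint (S ∩ DD J Z v) (ed v T)) := by
    intro v hv
    have h5 := mem_filter.1 (hY (hT' hv))
    rw [mem_filter]
    refine ⟨h5.1, h5.2, ?_⟩
    rw [disjoint_left]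
    intro e he he'
    obtain ⟨u, hu, rfl⟩ := mem_ed.1 he'
    have h6 := hcon u hu v hv
    apply h6
    rw [Sym2.eq_swap]
    exact (mem_inter.1 he).1
  have h5 := card_le_card h4
  rw [hTc'] at h5
  have h6 : (s : ℝ) ≤ ((V.filter (fun v => good J Z c v (S ∩ DD J Z v) ∧
      Disjoint (S ∩ DD J Z v) (ed v T))).card : ℝ) := by exact_mod_cast h5
  linarith

theorem log_half_bound : - Real.log (1 / 2) ≤ 1 := by
  rw [one_div, Real.log_inv, neg_neg]
  have := Real.log_two_lt_d9
  linarith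

theorem step_core {ι : Type*} [DecidableEq ι] {p : ℝ} (hp : 0 ≤ p) (hp' : p ≤ 1) {C s c : ℕ}
    (hC : 1 ≤ C)
    (J : Finset ι) (Z : ι → Finset (Fin n)) (hZ : ∀ j ∈ J, (Z j).card = C * s)
    (hdisj : ∀ j ∈ J, ∀ j' ∈ J, j ≠ j' → Disjoint (Z j) (Z j')) (V : Finset (Fin n))
    (hV : ∀ j ∈ J, Disjoint V (Z j)) {q : ℝ} (hq0 : 0 ≤ q)
    (hq : ((C * s - s).choose c : ℝ) ≤ q * ((C * s).choose c : ℝ))
    (hN1 : 4 * (C : ℝ) * s ≤ g1 p C s c ^ J.card * V.card)
    (hN2 : g1 p C s c ^ J.card * V.card ≤ 8 * (C : ℝ) * s)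
    (hqL : q * (8 * C) * Real.exp (C + 2) ≤ 1) :
    1 - (J.card + 1) * Real.exp (-s) ≤ PP p (V.biUnion (DD J Z)) (Succ C s J Z V) := by
  have hs0 : (0 : ℝ) ≤ s := by positivity
  have hC1 : (1 : ℝ) ≤ C := by exact_mod_cast hC
  have hD : ∀ i ∈ V, ∀ j ∈ V, i ≠ j → Disjoint (DD J Z i) (DD J Z j) :=
    fun i hi j _ hij => DD_disjoint hV hi hij
  -- first failure
  have hF1 : PP p (V.biUnion (DD J Z))
      (fun S => ((V.filter (fun v => good J Z c v (S ∩ DD J Z v))).card : ℝ) ≤ (C : ℝ) * s) ≤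
      Real.exp (-s) := by
    have h1 := tail_lower hp hp' V (DD J Z) hD (fun v S => good J Z c v S) (y := 1 / 2)
      (q := g1 p C s c ^ J.card) (t := (C : ℝ) * s) (by norm_num) (by norm_num)
      (fun v _ => (PP_good J Z hZ hdisj v).ge)
    refine h1.trans ?_
    rw [Real.exp_le_exp]
    have h2 := log_half_bound
    have h3 : (C : ℝ) * s * (- Real.log (1 / 2)) ≤ (C : ℝ) * s * 1 :=
      mul_le_mul_of_nonneg_left h2 (by positivity)
    have h4 : (s : ℝ) ≤ C * s := le_mul_of_one_le_left hs0 hC1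
    nlinarith
  -- second failure
  have hF2 : ∀ j ∈ J, ∀ T ∈ powersetCard s (Z j), PP p (V.biUnion (DD J Z))
      (fun S => (s : ℝ) ≤ ((V.filter (fun v => good J Z c v (S ∩ DD J Z v) ∧
      Disjoint (S ∩ DD J Z v) (ed v T))).card : ℝ)) ≤ Real.exp (- (s * (C + 1))) := by
    intro j hj T hT
    rw [mem_powersetCard] at hT
    have h1 := tail_upper hp hp' V (DD J Z) hD
      (fun v S => good J Z c v S ∧ Disjoint S (ed v T)) (y := Real.exp (C + 2))
      (q := q * g1 p C s c ^ J.card) (t := (s : ℝ)) (Real.one_le_exp (by positivity))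
      (fun v _ => PP_miss J Z hZ hdisj v hj hT.1 hT.2 hp hp' hq)
    refine le_trans (le_of_eq ?_) (h1.trans ?_)
    · apply PP_congr
      intro S _
      have : (V.filter (fun v => good J Z c v (S ∩ DD J Z v) ∧
          Disjoint (S ∩ DD J Z v) (ed v T))).card = (@Finset.filter _ (fun v => good J Z c v (S ∩ DD J Z v) ∧
          Disjoint (S ∩ DD J Z v) (ed v T)) (fun a => Classical.propDecidable _) V).card := by
        congr!
      rw [this]
    rw [Real.exp_le_exp, Real.log_exp]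
    have hE : 0 < Real.exp ((C : ℝ) + 2) := Real.exp_pos _
    have h2 : (Real.exp (C + 2) - 1) * (q * g1 p C s c ^ J.card) * V.card ≤
        Real.exp (C + 2) * q * (8 * C * s) := by
      have h3 : q * g1 p C s c ^ J.card * V.card ≤ q * (8 * C * s) := by
        rw [mul_assoc]
        exact mul_le_mul_of_nonneg_left hN2 hq0
      have h4 : 0 ≤ q * g1 p C s c ^ J.card * V.card := by
        rw [mul_assoc]
        apply mul_nonneg hq0
        refine le_trans ?_ hN1
        positivity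
      calc (Real.exp (C + 2) - 1) * (q * g1 p C s c ^ J.card) * V.card
          ≤ Real.exp (C + 2) * (q * g1 p C s c ^ J.card * V.card) := by nlinarith
        _ ≤ Real.exp (C + 2) * (q * (8 * C * s)) := mul_le_mul_of_nonneg_left h3 hE.le
        _ = _ := by ring
    have h5 : Real.exp (C + 2) * q * (8 * C * s) ≤ s := by
      calc Real.exp (C + 2) * q * (8 * C * s) = (q * (8 * C) * Real.exp (C + 2)) * s := by ring
        _ ≤ 1 * s := mul_le_mul_of_nonneg_right hqL hs0
        _ = s := one_mul _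
    nlinarith
  have hcount : ∀ j ∈ J, ((powersetCard s (Z j)).card : ℝ) ≤ Real.exp (C * s) := by
    intro j hj
    rw [card_powersetCard, hZ j hj]
    calc (((C * s).choose s : ℕ) : ℝ) ≤ ((2 ^ (C * s) : ℕ) : ℝ) := by
          exact_mod_cast Nat.choose_le_two_pow _ _
      _ = (2 : ℝ) ^ (C * s) := by push_cast; rfl
      _ ≤ (Real.exp 1) ^ (C * s) := by
          apply pow_le_pow_left₀ (by norm_num)
          have := Real.exp_one_gt_d9
          linarith
      _ = Real.exp (C * s) := by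
          rw [← Real.exp_nat_mul]; push_cast; ring_nf
  have hfail : PP p (V.biUnion (DD J Z)) (fun S => ¬ Succ C s J Z V S) ≤
      (J.card + 1) * Real.exp (-s) := by
    calc PP p (V.biUnion (DD J Z)) (fun S => ¬ Succ C s J Z V S)
        ≤ PP p (V.biUnion (DD J Z)) (fun S =>
          (((V.filter (fun v => good J Z c v (S ∩ DD J Z v))).card : ℝ) ≤ (C : ℝ) * s) ∨
          ∃ j ∈ J, ∃ T ∈ powersetCard s (Z j),
            (s : ℝ) ≤ ((V.filter (fun v => good J Z c v (S ∩ DD J Z v) ∧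
              Disjoint (S ∩ DD J Z v) (ed v T))).card : ℝ)) := by
          apply PP_mono hp hp'
          intro S _ hS
          by_contra hcon
          push Not at hcon
          exact hS (succ_of hcon.1 hcon.2)
      _ ≤ Real.exp (-s) + ∑ j ∈ J, ∑ T ∈ powersetCard s (Z j), Real.exp (- (s * (C + 1))) := by
          refine (PP_or hp hp' _ _).trans ?_
          apply add_le_add hF1
          refine (PP_union_bound hp hp' J _).trans ?_
          apply sum_le_sum
          intro j hj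
          refine (PP_union_bound hp hp' _ _).trans ?_
          apply sum_le_sum
          intro T hT
          exact hF2 j hj T hT
      _ ≤ Real.exp (-s) + ∑ _j ∈ J, Real.exp (-s) := by
          apply add_le_add le_rfl
          apply sum_le_sum
          intro j hj
          rw [sum_const, nsmul_eq_mul]
          calc ((powersetCard s (Z j)).card : ℝ) * Real.exp (- (s * (C + 1)))
              ≤ Real.exp (C * s) * Real.exp (- (s * (C + 1))) :=
                mul_le_mul_of_nonneg_right (hcount j hj) (Real.exp_pos _).le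
            _ = Real.exp (-s) := by rw [← Real.exp_add]; congr 1; ring
      _ = (J.card + 1) * Real.exp (-s) := by
          rw [sum_const, nsmul_eq_mul]; ring
  rw [PP_compl] at hfail
  linarith

/-- the step inside larger sets of vertices and of potential edges -/
theorem step_large {ι : Type*} [DecidableEq ι] {p : ℝ} (hp : 0 ≤ p) (hp' : p ≤ 1) {C s c : ℕ}
    (hC : 1 ≤ C) (hs : 1 ≤ s)
    (J : Finset ι) (Z : ι → Finset (Fin n)) (hZ : ∀ j ∈ J, (Z j).card = C * s)
    (hdisj : ∀ j ∈ J, ∀ j' ∈ J, j ≠ j' → Disjoint (Z j) (Z j')) (V : Finset (Fin n))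
    (hV : ∀ j ∈ J, Disjoint V (Z j)) {q : ℝ} (hq0 : 0 ≤ q)
    (hq : ((C * s - s).choose c : ℝ) ≤ q * ((C * s).choose c : ℝ))
    (hg0 : 0 < g1 p C s c) (hg1 : g1 p C s c ≤ 1)
    (hN : 8 * (C : ℝ) * s ≤ g1 p C s c ^ J.card * V.card)
    (hqL : q * (8 * C) * Real.exp (C + 2) ≤ 1) (D : Finset (Sym2 (Fin n)))
    (hD : ∀ v ∈ V, ∀ j ∈ J, ∀ u ∈ Z j, s(v, u) ∈ D) :
    1 - (J.card + 1) * Real.exp (-s) ≤ PP p D (Succ C s J Z V) := by
  set G := g1 p C s c ^ J.card with hG
  have hG0 : 0 < G := pow_pos hg0 _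
  have hG1 : G ≤ 1 := pow_le_one₀ hg0.le hg1
  have hs1 : (1 : ℝ) ≤ s := by exact_mod_cast hs
  have hC1 : (1 : ℝ) ≤ C := by exact_mod_cast hC
  have hCs : (1 : ℝ) ≤ C * s := by nlinarith
  set N := ⌈4 * (C : ℝ) * s / G⌉₊ with hNdef
  have hN1 : 4 * (C : ℝ) * s / G ≤ N := Nat.le_ceil _
  have hN2 : (N : ℝ) < 4 * (C : ℝ) * s / G + 1 := Nat.ceil_lt_add_one (by positivity)
  have hN3 : 4 * (C : ℝ) * s ≤ G * N := by
    rw [div_le_iff₀ hG0] at hN1
    linarith
  have hN4 : G * N ≤ 8 * (C : ℝ) * s := by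
    have h1 : G * N < G * (4 * (C : ℝ) * s / G + 1) := mul_lt_mul_of_pos_left hN2 hG0
    have h2 : G * (4 * (C : ℝ) * s / G + 1) = 4 * (C : ℝ) * s + G := by
      field_simp
    nlinarith
  have hNV : N ≤ V.card := by
    have h1 : (N : ℝ) ≤ V.card := by
      by_contra hcon
      push Not at hcon
      have h2 : G * V.card < G * N := mul_lt_mul_of_pos_left hcon hG0
      linarith
    exact_mod_cast h1
  obtain ⟨V', hV', hV'c⟩ := exists_subset_card_eq hNV
  have hV'd : ∀ j ∈ J, Disjoint V' (Z j) := fun j hj => (hV j hj).mono_left hV'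
  have h1 := step_core hp hp' hC J Z hZ hdisj V' hV'd hq0 hq (by rw [hV'c]; exact hN3)
    (by rw [hV'c]; exact hN4) hqL
  refine h1.trans ?_
  have hsub : V'.biUnion (DD J Z) ⊆ D := by
    intro e he
    rw [mem_biUnion] at he
    obtain ⟨v, hv, he⟩ := he
    unfold DD at he
    rw [mem_biUnion] at he
    obtain ⟨j, hj, he⟩ := he
    obtain ⟨u, hu, rfl⟩ := mem_ed.1 he
    exact hD v (hV' hv) j hj u hu
  rw [← PP_inter p hsub]
  apply PP_mono hp hp'
  rintro S _ ⟨Y, hY, hYc, hH⟩
  exact ⟨Y, hY.trans hV', hYc, fun j hj => HF_mono inter_subset_left (hH j hj)⟩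

end Pool.Agent.Helper63.Chrom
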