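import Mathlib
import Pool.Agent.Helper63.Chrom.Step2

/-!
Sequential selection of the sets `Z j`.
-/

set_option autoImplicit false

namespace Pool.Agent.Helper63.Chrom

open Finset Classical

theorem PP_seq {E : Type*} [DecidableEq E] {p : ℝ} (hp : 0 ≤ p) (hp' : p ≤ 1) {D₁ D₂ : Finset E}
    (hd : Disjoint D₁ D₂) {P Q : Finset E → Prop} {ε : ℝ}
    (h : ∀ S, S ⊆ D₁ → P S → 1 - ε ≤ PP p D₂ (fun T => Q (S ∪ T))) :
    (1 - ε) * PP p D₁ P ≤ PP p (D₁ ∪ D₂) Q := by
  have h1 : PP p (D₁ ∪ D₂) Q = EE p D₁ (fun S => PP p D₂ (fun T => Q (S ∪ T))) := by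
    unfold PP
    rw [EE_union p hd]
  rw [h1]
  unfold PP at *
  rw [← EE_const_mul]
  apply EE_mono hp hp'
  intro S hS
  by_cases hP : P S
  · rw [if_pos hP, mul_one]
    exact h S hS hP
  · rw [if_neg hP, mul_zero]
    apply EE_nonneg hp hp'
    intro T _
    split_ifs <;> norm_num

variable {n k : ℕ}

/-- pairs inside `A` -/
noncomputable def ins (A : Finset (Fin n)) : Finset (Sym2 (Fin n)) :=
  univ.filter (fun e => ¬ e.IsDiag ∧ ∀ x ∈ e, x ∈ A)

theorem mem_ins {A : Finset (Fin n)} {u v : Fin n} : s(u, v) ∈ ins A ↔ u ≠ v ∧ u ∈ A ∧ v ∈ A := by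
  unfold ins
  rw [mem_filter]
  simp

theorem ins_mono {A B : Finset (Fin n)} (h : A ⊆ B) : ins A ⊆ ins B := by
  intro e he
  unfold ins at *
  rw [mem_filter] at *
  exact ⟨he.1, he.2.1, fun x hx => h (he.2.2 x hx)⟩

/-- the first `i` blocks -/
noncomputable def AA (V : Fin k → Finset (Fin n)) (i : ℕ) : Finset (Fin n) :=
  (univ.filter (fun j : Fin k => j.val < i)).biUnion V

theorem mem_AA {V : Fin k → Finset (Fin n)} {i : ℕ} {v : Fin n} :
    v ∈ AA V i ↔ ∃ j : Fin k, j.val < i ∧ v ∈ V j := by
  unfold AA; simp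

/-- the first `i` selections were successful -/
def Ev (C s : ℕ) (V : Fin k → Finset (Fin n)) (i : ℕ) (S : Finset (Sym2 (Fin n))) : Prop :=
  ∃ Z : Fin k → Finset (Fin n), (∀ j : Fin k, j.val < i → Z j ⊆ V j ∧ (Z j).card = C * s) ∧
    ∀ j j' : Fin k, j.val < i → j'.val < i → j ≠ j' → HF s S (Z j) (Z j')

theorem seq {p : ℝ} (hp : 0 ≤ p) (hp' : p ≤ 1) {C s c : ℕ}
    (hC : 1 ≤ C) (hs : 1 ≤ s) (V : Fin k → Finset (Fin n))
    (hdisj : ∀ j j' : Fin k, j ≠ j' → Disjoint (V j) (V j'))
    {q : ℝ} (hq0 : 0 ≤ q)
    (hq : ((C * s - s).choose c : ℝ) ≤ q * ((C * s).choose c : ℝ))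
    (hg0 : 0 < g1 p C s c) (hg1 : g1 p C s c ≤ 1)
    (hN : ∀ j, 8 * (C : ℝ) * s ≤ g1 p C s c ^ k * (V j).card)
    (hqL : q * (8 * C) * Real.exp (C + 2) ≤ 1) {ε : ℝ} (hε : (k + 1) * Real.exp (-s) ≤ ε)
    (hε1 : ε ≤ 1) (i : ℕ) (hi : i ≤ k) :
    1 - i * ε ≤ PP p (ins (AA V i)) (Ev C s V i) := by
  have hε0 : 0 ≤ ε := le_trans (by positivity) hε
  induction i with
  | zero =>
    have h1 : PP p (ins (AA V 0)) (Ev C s V 0) = 1 := by
      have h2 : PP p (ins (AA V 0)) (Ev C s V 0) =
          PP p (ins (AA V 0)) (fun _ => True) := by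
        apply PP_congr
        intro S _
        refine ⟨fun _ => trivial, fun _ => ⟨fun _ => ∅, ?_, ?_⟩⟩
        · intro j hj; exact absurd hj (Nat.not_lt_zero _)
        · intro j _ hj; exact absurd hj (Nat.not_lt_zero _)
      rw [h2]
      unfold PP
      refine Eq.trans ?_ (EE_const p (ins (AA V 0)) 1)
      apply EE_congr
      intro S _
      rw [if_pos trivial]
    rw [h1]; simp
  | succ i ih =>
    have hik : i < k := hi
    have ih' := ih hik.le
    have hAA : AA V i ⊆ AA V (i + 1) := by
      intro v hv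
      rw [mem_AA] at *
      obtain ⟨j, hj, hv⟩ := hv
      exact ⟨j, by omega, hv⟩
    have hU : ins (AA V i) ∪ (ins (AA V (i + 1)) \ ins (AA V i)) = ins (AA V (i + 1)) :=
      union_sdiff_of_subset (ins_mono hAA)
    have hmain : (1 - ε) * PP p (ins (AA V i)) (Ev C s V i) ≤
        PP p (ins (AA V i) ∪ (ins (AA V (i + 1)) \ ins (AA V i))) (Ev C s V (i + 1)) := by
      apply PP_seq hp hp' disjoint_sdiff
      rintro S _ ⟨Z, hZ, hH⟩
      set J : Finset (Fin k) := univ.filter (fun j => j.val < i) with hJ
      have hJmem : ∀ j, j ∈ J ↔ j.val < i := by intro j; rw [hJ, mem_filter]; simp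
      have hJc : J.card ≤ k := by
        calc J.card ≤ (univ : Finset (Fin k)).card := card_le_card (filter_subset _ _)
          _ = k := by simp
      set i' : Fin k := ⟨i, hik⟩ with hi'
      have hVi : ∀ j ∈ J, Disjoint (V i') (Z j) := by
        intro j hj
        have h1 := (hJmem j).1 hj
        have h2 : i' ≠ j := by
          rintro rfl
          simp only [hi'] at h1
          omega
        exact (hdisj _ _ h2).mono_right (hZ j h1).1
      have h1 := step_large hp hp' hC hs J Z (fun j hj => (hZ j ((hJmem j).1 hj)).2)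
        (fun j hj j' hj' hne => (hdisj j j' hne).mono (hZ j ((hJmem j).1 hj)).1
          (hZ j' ((hJmem j').1 hj')).1) (V i') hVi hq0 hq hg0 hg1
        (by
          refine (hN i').trans ?_
          apply mul_le_mul_of_nonneg_right _ (by positivity)
          exact pow_le_pow_of_le_one hg0.le hg1 hJc) hqL
        (ins (AA V (i + 1)) \ ins (AA V i))
        (by
          intro v hv j hj u hu
          have h3 := (hJmem j).1 hj
          rw [mem_sdiff, mem_ins, mem_ins]
          have h4 : v ≠ u := by
            rintro rfl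
            exact disjoint_left.1 (hVi j hj) hv hu
          refine ⟨⟨h4, mem_AA.2 ⟨i', by simp [hi'], hv⟩,
            mem_AA.2 ⟨j, by omega, (hZ j h3).1 hu⟩⟩, ?_⟩
          rintro ⟨_, h5, _⟩
          obtain ⟨j', hj', hv'⟩ := mem_AA.1 h5
          have h6 : i' ≠ j' := by
            rintro rfl
            simp only [hi'] at hj'
            omega
          exact disjoint_left.1 (hdisj _ _ h6) hv hv')
      have h2 : 1 - ε ≤ 1 - (J.card + 1) * Real.exp (-s) := by
        have : ((J.card : ℝ) + 1) * Real.exp (-s) ≤ (k + 1) * Real.exp (-s) := by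
          apply mul_le_mul_of_nonneg_right _ (Real.exp_pos _).le
          have : (J.card : ℝ) ≤ k := by exact_mod_cast hJc
          linarith
        linarith
      refine h2.trans (h1.trans ?_)
      apply PP_mono hp hp'
      rintro T _ ⟨Y, hY, hYc, hHY⟩
      refine ⟨Function.update Z i' Y, ?_, ?_⟩
      · intro j hj
        by_cases hji : j = i'
        · subst hji
          rw [Function.update_self]
          exact ⟨hY, hYc⟩
        · rw [Function.update_of_ne hji]
          apply hZ
          have : j.val ≠ i := fun h => hji (Fin.ext h)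
          omega
      · intro j j' hj hj' hne
        by_cases hji : j = i'
        · subst hji
          have hj'i : j' ≠ i' := fun h => hne h.symm
          rw [Function.update_self, Function.update_of_ne hj'i]
          apply HF_symm
          apply HF_mono subset_union_right
          apply hHY
          rw [hJmem]
          have : j'.val ≠ i := fun h => hj'i (Fin.ext h)
          omega
        · by_cases hj'i : j' = i'
          · subst hj'i
            rw [Function.update_self, Function.update_of_ne hji]
            apply HF_mono subset_union_right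
            apply hHY
            rw [hJmem]
            have : j.val ≠ i := fun h => hji (Fin.ext h)
            omega
          · rw [Function.update_of_ne hji, Function.update_of_ne hj'i]
            apply HF_mono subset_union_left
            have h3 : j.val ≠ i := fun h => hji (Fin.ext h)
            have h4 : j'.val ≠ i := fun h => hj'i (Fin.ext h)
            exact hH j j' (by omega) (by omega) hne
    rw [hU] at hmain
    refine le_trans ?_ hmain
    calc 1 - ((i + 1 : ℕ) : ℝ) * ε ≤ (1 - ε) * (1 - i * ε) := by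
          push_cast
          have : 0 ≤ (i : ℝ) * ε ^ 2 := by positivity
          nlinarith
      _ ≤ (1 - ε) * PP p (ins (AA V i)) (Ev C s V i) :=
          mul_le_mul_of_nonneg_left ih' (by linarith)

end Pool.Agent.Helper63.Chrom
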