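import Mathlib
import Pool.Agent.Helper63.Chrom.Seq

/-!
Degrees and neighbourhoods: the estimates for the edges leaving the reserved set `A`.
-/

set_option autoImplicit false

namespace Pool.Agent.Helper63.Chrom

open Finset Classical

theorem PP_superset {E : Type*} [DecidableEq E] (p : ℝ) {D F : Finset E} (h : F ⊆ D) :
    PP p D (fun S => F ⊆ S) = p ^ F.card := by
  have h1 : PP p D (fun S => F ⊆ S) = PP p D (fun S => F ⊆ S ∩ F) := by
    apply PP_congr
    intro S _
    constructor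
    · intro h x hx; exact mem_inter.2 ⟨h hx, hx⟩
    · intro h x hx; exact (mem_inter.1 (h hx)).1
  rw [h1, PP_inter p h (fun S => F ⊆ S)]
  unfold PP EE
  rw [sum_eq_single F]
  · beta_reduce
    rw [if_pos (subset_refl _)]
    simp
  · intro S hS hne
    beta_reduce
    rw [if_neg, mul_zero]
    intro hF
    exact hne (subset_antisymm (mem_powerset.1 hS) hF)
  · intro hF
    exact absurd (mem_powerset.2 (subset_refl _)) hF

theorem PP_mem {E : Type*} [DecidableEq E] (p : ℝ) {D : Finset E} {e : E} (h : e ∈ D) :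
    PP p D (fun S => e ∈ S) = p := by
  have h1 := PP_superset p (singleton_subset_iff.2 h)
  rw [card_singleton, pow_one] at h1
  refine Eq.trans ?_ h1
  apply PP_congr
  intro S _
  rw [singleton_subset_iff]

variable {n : ℕ}

theorem mem_rest {A : Finset (Fin n)} {u v : Fin n} (hu : u ∉ A) (huv : v ≠ u) :
    s(v, u) ∈ ins univ \ ins A := by
  rw [mem_sdiff, mem_ins, mem_ins]
  exact ⟨⟨huv, mem_univ _, mem_univ _⟩, fun h => hu h.2.2⟩

/-- exponent in the lower tail estimate -/
noncomputable def kap (δ : ℝ) : ℝ := δ + (1 - δ) * Real.log (1 - δ)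

theorem kap_pos {δ : ℝ} (h0 : 0 < δ) (h1 : δ < 1) : 0 < kap δ := by
  have h2 : 0 < 1 - δ := by linarith
  have h3 : Real.log (1 / (1 - δ)) < 1 / (1 - δ) - 1 := by
    apply Real.log_lt_sub_one_of_pos (by positivity)
    intro h
    rw [div_eq_one_iff_eq h2.ne'] at h
    linarith
  rw [one_div, Real.log_inv] at h3
  have h4 : (1 - δ) * (- Real.log (1 - δ)) < (1 - δ) * ((1 - δ)⁻¹ - 1) :=
    mul_lt_mul_of_pos_left h3 h2
  have h5 : (1 - δ) * ((1 - δ)⁻¹ - 1) = δ := by
    field_simp
    ring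
  unfold kap
  linarith

theorem deg_bound {p : ℝ} (hp : 0 ≤ p) (hp' : p ≤ 1) (A : Finset (Fin n)) (col : Fin n → Fin 3)
    {δ M : ℝ} (h0 : 0 < δ) (h1 : δ < 1) (v : Fin n) (i : Fin 3)
    (hM : M ≤ ((univ.filter (fun u => u ∉ A ∧ col u = i ∧ u ≠ v)).card : ℝ)) :
    PP p (ins univ \ ins A) (fun S => (((univ.filter (fun u => u ∉ A ∧ col u = i ∧ u ≠ v)).filter
      (fun u => s(v, u) ∈ S)).card : ℝ) ≤ (1 - δ) * p * M) ≤ Real.exp (- (kap δ * p * M)) := by
  set U : Finset (Fin n) := univ.filter (fun u => u ∉ A ∧ col u = i ∧ u ≠ v) with hU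
  have hsub : U.biUnion (fun u => ({s(v, u)} : Finset (Sym2 (Fin n)))) ⊆ ins univ \ ins A := by
    intro e he
    rw [mem_biUnion] at he
    obtain ⟨u, hu, he⟩ := he
    rw [mem_singleton] at he
    subst he
    rw [hU, mem_filter] at hu
    exact mem_rest hu.2.1 (fun h => hu.2.2.2 h.symm)
  have hD : ∀ i ∈ U, ∀ j ∈ U, i ≠ j → Disjoint ({s(v, i)} : Finset (Sym2 (Fin n))) {s(v, j)} := by
    intro i _ j _ hij
    rw [disjoint_singleton]
    intro h
    exact hij (Sym2.congr_right.1 h)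
  have h2 := tail_lower hp hp' U (fun u => ({s(v, u)} : Finset (Sym2 (Fin n)))) hD
    (fun u S => s(v, u) ∈ S) (y := 1 - δ) (q := p) (t := (1 - δ) * p * M) (by linarith)
    (by linarith) (fun u _ => (PP_mem p (mem_singleton_self _)).ge)
  rw [← PP_inter p hsub] at h2
  have h3 : PP p (ins univ \ ins A) (fun S => ((U.filter
      (fun u => s(v, u) ∈ S)).card : ℝ) ≤ (1 - δ) * p * M) =
      PP p (ins univ \ ins A) (fun S => ((U.filter (fun u => s(v, u) ∈
        S ∩ (U.biUnion (fun u => ({s(v, u)} : Finset (Sym2 (Fin n))))) ∩ {s(v, u)})).card : ℝ) ≤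
        (1 - δ) * p * M) := by
    apply PP_congr
    intro S _
    have : U.filter (fun u => s(v, u) ∈ S) = U.filter (fun u => s(v, u) ∈
        S ∩ (U.biUnion (fun u => ({s(v, u)} : Finset (Sym2 (Fin n))))) ∩ {s(v, u)}) := by
      apply filter_congr
      intro u hu
      rw [mem_inter, mem_inter, mem_singleton]
      constructor
      · intro h
        exact ⟨⟨h, mem_biUnion.2 ⟨u, hu, mem_singleton_self _⟩⟩, rfl⟩
      · intro h; exact h.1.1
    rw [this]
  rw [h3]
  refine le_trans (le_of_eq ?_) (h2.trans ?_)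
  · apply PP_congr
    intro S _
    have : (U.filter (fun u => s(v, u) ∈
        S ∩ (U.biUnion (fun u => ({s(v, u)} : Finset (Sym2 (Fin n))))) ∩ {s(v, u)})).card =
        (@Finset.filter _ (fun u => s(v, u) ∈
        S ∩ (U.biUnion (fun u => ({s(v, u)} : Finset (Sym2 (Fin n))))) ∩ {s(v, u)})
        (fun a => Classical.propDecidable _) U).card := by
      congr!
    rw [this]
  · rw [Real.exp_le_exp]
    unfold kap
    have h4 : δ * p * M ≤ δ * p * U.card := by
      apply mul_le_mul_of_nonneg_left hM (by positivity)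
    have h5 : (1 - (1 - δ)) = δ := by ring
    rw [h5]
    nlinarith

theorem W_bound {p : ℝ} (hp : 0 ≤ p) (hp' : p ≤ 1) (A : Finset (Fin n))
    (Zs : Finset (Fin n)) (hZs : Zs ⊆ A) {δ : ℝ} (hδ : 2 * p * Zs.card ≤ δ / 2)
    (v : Fin n) (hv : v ∉ A) :
    PP p (ins univ \ ins A) (fun S => δ * p * n ≤ (((univ.filter (fun u => u ∉ A ∧ u ≠ v)).filter
      (fun u => s(v, u) ∈ S ∧ ∃ z ∈ Zs, s(u, z) ∈ S)).card : ℝ)) ≤
      Real.exp (- (δ / 2 * p * n)) := by
  set U : Finset (Fin n) := univ.filter (fun u => u ∉ A ∧ u ≠ v) with hU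
  have hUmem : ∀ u ∈ U, u ∉ A ∧ u ≠ v := by
    intro u hu
    rw [hU, mem_filter] at hu
    exact hu.2
  set D : Fin n → Finset (Sym2 (Fin n)) := fun u => insert s(v, u) (ed u Zs) with hDdef
  have hsub : U.biUnion D ⊆ ins univ \ ins A := by
    intro e he
    rw [mem_biUnion] at he
    obtain ⟨u, hu, he⟩ := he
    have hu' := hUmem u hu
    rw [hDdef, mem_insert] at he
    rcases he with rfl | he
    · exact mem_rest hu'.1 (fun h => hu'.2 h.symm)
    · obtain ⟨z, hz, rfl⟩ := mem_ed.1 he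
      rw [Sym2.eq_swap]
      exact mem_rest hu'.1 (by rintro rfl; exact hu'.1 (hZs hz))
  have hD : ∀ i ∈ U, ∀ j ∈ U, i ≠ j → Disjoint (D i) (D j) := by
    intro i hi j hj hij
    have hi' := hUmem i hi
    have hj' := hUmem j hj
    rw [disjoint_left]
    intro e he he'
    rw [hDdef, mem_insert] at he he'
    rcases he with rfl | he
    · rcases he' with he' | he'
      · exact hij (Sym2.congr_right.1 he')
      · obtain ⟨z, hz, hz'⟩ := mem_ed.1 he'
        rw [Sym2.eq_iff] at hz'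
        rcases hz' with ⟨h1, _⟩ | ⟨h1, _⟩
        · exact hj'.2 h1
        · exact hij h1.symm
    · rcases he' with he' | he'
      · obtain ⟨z, hz, hz'⟩ := mem_ed.1 he
        rw [he', Sym2.eq_iff] at hz'
        rcases hz' with ⟨h1, _⟩ | ⟨h1, _⟩
        · exact hi'.2 h1
        · exact hij h1
      · exact disjoint_left.1 (ed_disjoint_of_ne (X := Zs) (X' := Zs) hij
          (fun h => hi'.1 (hZs h))) he he'
  have hq : ∀ u ∈ U, PP p (D u) (fun S => s(v, u) ∈ S ∧ ∃ z ∈ Zs, s(u, z) ∈ S) ≤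
      p * (p * Zs.card) := by
    intro u hu
    have hu' := hUmem u hu
    calc PP p (D u) (fun S => s(v, u) ∈ S ∧ ∃ z ∈ Zs, s(u, z) ∈ S)
        ≤ PP p (D u) (fun S => ∃ z ∈ Zs, ({s(v, u), s(u, z)} : Finset (Sym2 (Fin n))) ⊆ S) := by
          apply PP_mono hp hp'
          rintro S _ ⟨h1, z, hz, h2⟩
          refine ⟨z, hz, ?_⟩
          intro e he
          rw [mem_insert, mem_singleton] at he
          rcases he with rfl | rfl
          · exact h1
          · exact h2
      _ ≤ ∑ z ∈ Zs, PP p (D u) (fun S => ({s(v, u), s(u, z)} : Finset (Sym2 (Fin n))) ⊆ S) :=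
          PP_union_bound hp hp' _ _
      _ = ∑ z ∈ Zs, p ^ 2 := by
          apply sum_congr rfl
          intro z hz
          have hne : s(v, u) ≠ s(u, z) := by
            intro h
            rw [Sym2.eq_iff] at h
            rcases h with ⟨h1, _⟩ | ⟨h1, _⟩
            · exact hu'.2 h1.symm
            · exact hv (h1 ▸ hZs hz)
          rw [PP_superset, card_pair hne]
          intro e he
          rw [mem_insert, mem_singleton] at he
          rw [hDdef, mem_insert]
          rcases he with rfl | rfl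
          · left; rfl
          · right; exact mem_ed'.2 hz
      _ = p * (p * Zs.card) := by
          rw [sum_const, nsmul_eq_mul]; ring
  have h2 := tail_upper hp hp' U D hD
    (fun u S => s(v, u) ∈ S ∧ ∃ z ∈ Zs, s(u, z) ∈ S) (y := Real.exp 1) (q := p * (p * Zs.card))
    (t := δ * p * n) (Real.one_le_exp (by norm_num)) hq
  rw [← PP_inter p hsub] at h2
  have h3 : PP p (ins univ \ ins A) (fun S => δ * p * n ≤ ((U.filter
      (fun u => s(v, u) ∈ S ∧ ∃ z ∈ Zs, s(u, z) ∈ S)).card : ℝ)) =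
      PP p (ins univ \ ins A) (fun S => δ * p * n ≤ ((U.filter (fun u => s(v, u) ∈
        S ∩ (U.biUnion D) ∩ D u ∧ ∃ z ∈ Zs, s(u, z) ∈ S ∩ (U.biUnion D) ∩ D u)).card : ℝ)) := by
    apply PP_congr
    intro S _
    have : U.filter (fun u => s(v, u) ∈ S ∧ ∃ z ∈ Zs, s(u, z) ∈ S) = U.filter (fun u => s(v, u) ∈
        S ∩ (U.biUnion D) ∩ D u ∧ ∃ z ∈ Zs, s(u, z) ∈ S ∩ (U.biUnion D) ∩ D u) := by
      apply filter_congr
      intro u hu
      have hmem : ∀ e, e ∈ D u → (e ∈ S ↔ e ∈ S ∩ (U.biUnion D) ∩ D u) := by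
        intro e he
        rw [mem_inter, mem_inter]
        constructor
        · intro h
          exact ⟨⟨h, mem_biUnion.2 ⟨u, hu, he⟩⟩, he⟩
        · intro h; exact h.1.1
      have h4 : s(v, u) ∈ D u := mem_insert_self _ _
      rw [← hmem _ h4]
      constructor
      · rintro ⟨h5, z, hz, h6⟩
        refine ⟨h5, z, hz, (hmem _ ?_).1 h6⟩
        exact mem_insert_of_mem (mem_ed'.2 hz)
      · rintro ⟨h5, z, hz, h6⟩
        exact ⟨h5, z, hz, (mem_inter.1 (mem_inter.1 h6).1).1⟩
    rw [this]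
  rw [h3]
  refine le_trans (le_of_eq ?_) (h2.trans ?_)
  · apply PP_congr
    intro S _
    have : (U.filter (fun u => s(v, u) ∈
        S ∩ (U.biUnion D) ∩ D u ∧ ∃ z ∈ Zs, s(u, z) ∈ S ∩ (U.biUnion D) ∩ D u)).card =
        (@Finset.filter _ (fun u => s(v, u) ∈
        S ∩ (U.biUnion D) ∩ D u ∧ ∃ z ∈ Zs, s(u, z) ∈ S ∩ (U.biUnion D) ∩ D u)
        (fun a => Classical.propDecidable _) U).card := by
      congr!
    rw [this]
  · rw [Real.exp_le_exp, Real.log_exp]
    have hUn : (U.card : ℝ) ≤ n := by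
      have : U.card ≤ (univ : Finset (Fin n)).card := card_le_card (subset_univ _)
      rw [card_fin] at this
      exact_mod_cast this
    have he : Real.exp 1 - 1 ≤ 2 := by
      have := Real.exp_one_lt_d9
      linarith
    have he0 : 0 ≤ Real.exp 1 - 1 := by
      have := Real.exp_one_gt_d9
      linarith
    have h5 : (Real.exp 1 - 1) * (p * (p * Zs.card)) * U.card ≤ 2 * (p * (p * Zs.card)) * n := by
      gcongr
    have h6 : 2 * (p * (p * Zs.card)) * n ≤ δ / 2 * p * n := by
      have h7 := mul_le_mul_of_nonneg_right hδ (show 0 ≤ p * n by positivity)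
      nlinarith
    nlinarith

end Pool.Agent.Helper63.Chrom
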