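import Mathlib

/-!
The deterministic part: from a suitable small set `Z` (of large chromatic number, locally bipartite)
whose outer neighbourhood meets every neighbourhood in few vertices we obtain an `H`-free spanning
subgraph of large minimum degree and large chromatic number.
-/

set_option autoImplicit false

namespace Pool.Agent.Helper63.Chrom

open Finset Classical

variable {n k : ℕ}

/-- union of the `Z b` -/
noncomputable def ZZ (Z : Fin k → Finset (Fin n)) : Finset (Fin n) := univ.biUnion Z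

theorem mem_ZZ {Z : Fin k → Finset (Fin n)} {v : Fin n} : v ∈ ZZ Z ↔ ∃ b, v ∈ Z b := by
  simp [ZZ]

/-- the colour classes outside `Z` -/
noncomputable def cl (Γ : SimpleGraph (Fin n)) (Z : Fin k → Finset (Fin n)) (A : Finset (Fin n))
    (col : Fin n → Fin 3) (v : Fin n) : Fin 3 :=
  if v ∈ A then 1 else if ∃ z ∈ ZZ Z, Γ.Adj v z then 0 else col v

/-- the constructed spanning subgraph -/
noncomputable def GG (R : Fin k → Fin k → Prop) (Γ : SimpleGraph (Fin n))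
    (Z : Fin k → Finset (Fin n)) (A : Finset (Fin n))
    (col : Fin n → Fin 3) : SimpleGraph (Fin n) where
  Adj u v := Γ.Adj u v ∧ ((∃ b b', u ∈ Z b ∧ v ∈ Z b' ∧ (R b b' ∨ R b' b)) ∨
    (u ∈ ZZ Z ∧ v ∉ A) ∨ (v ∈ ZZ Z ∧ u ∉ A) ∨
    (u ∉ ZZ Z ∧ v ∉ ZZ Z ∧ cl Γ Z A col u ≠ cl Γ Z A col v))
  symm := ⟨by
    rintro u v ⟨h1, h2⟩
    refine ⟨h1.symm, ?_⟩
    rcases h2 with ⟨b, b', hb, hb', hR⟩ | h | h | ⟨h1, h2, h3⟩
    · exact Or.inl ⟨b', b, hb', hb, hR.symm⟩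
    · exact Or.inr (Or.inr (Or.inl h))
    · exact Or.inr (Or.inl h)
    · exact Or.inr (Or.inr (Or.inr ⟨h2, h1, h3.symm⟩))⟩
  loopless := ⟨fun u h => Γ.loopless.irrefl u h.1⟩

theorem GG_le (R : Fin k → Fin k → Prop) (Γ : SimpleGraph (Fin n))
    (Z : Fin k → Finset (Fin n)) (A : Finset (Fin n)) (col : Fin n → Fin 3) :
    GG R Γ Z A col ≤ Γ := fun _ _ h => h.1

/-- `H`-freeness -/
theorem GG_free {kH : ℕ} (H : SimpleGraph (Fin kH)) (hH : ¬ H.Colorable 3)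
    (R : Fin k → Fin k → Prop)
    (hloc : ∀ S : Finset (Fin k), S.card ≤ kH → ∃ t : Fin k → Bool,
        ∀ x ∈ S, ∀ y ∈ S, R x y → t x ≠ t y)
    (Γ : SimpleGraph (Fin n)) (Z : Fin k → Finset (Fin n)) (A : Finset (Fin n))
    (col : Fin n → Fin 3) (hZA : ∀ b, Z b ⊆ A) (hdisj : ∀ b b', ∀ v, v ∈ Z b → v ∈ Z b' → b = b') :
    ¬ H.IsContained (GG R Γ Z A col) := by
  rintro ⟨f⟩
  apply hH
  set S : Finset (Fin k) := univ.filter (fun b => ∃ x, f x ∈ Z b) with hS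
  have hScard : S.card ≤ kH := by
    have h1 : S ⊆ (univ : Finset (Fin kH)).biUnion (fun x => univ.filter (fun b => f x ∈ Z b)) := by
      intro b hb
      rw [hS, mem_filter] at hb
      obtain ⟨_, x, hx⟩ := hb
      rw [mem_biUnion]
      exact ⟨x, mem_univ _, by rw [mem_filter]; exact ⟨mem_univ _, hx⟩⟩
    calc S.card ≤ _ := card_le_card h1
      _ ≤ ∑ x : Fin kH, (univ.filter (fun b => f x ∈ Z b)).card := card_biUnion_le
      _ ≤ ∑ _x : Fin kH, 1 := by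
          apply sum_le_sum
          intro x _
          rw [card_le_one]
          intro b hb b' hb'
          rw [mem_filter] at hb hb'
          exact hdisj b b' _ hb.2 hb'.2
      _ = kH := by simp
  obtain ⟨t, ht⟩ := hloc S hScard
  have htt : ∀ x b, f x ∈ Z b → ((∃ b, f x ∈ Z b ∧ t b = true) ↔ t b = true) := by
    intro x b hb
    constructor
    · rintro ⟨b', hb', h⟩
      rwa [hdisj b b' _ hb hb']
    · intro h; exact ⟨b, hb, h⟩
  let κ : Fin kH → Fin 3 := fun x =>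
    if f x ∈ ZZ Z then (if ∃ b, f x ∈ Z b ∧ t b = true then 1 else 2) else cl Γ Z A col (f x)
  refine ⟨SimpleGraph.Coloring.mk κ ?_⟩
  have key : ∀ x y, f x ∈ ZZ Z → f y ∉ A → Γ.Adj (f x) (f y) → κ x ≠ κ y := by
    intro x y hx hy hadj
    have hy' : f y ∉ ZZ Z := by
      intro h
      obtain ⟨b, hb⟩ := mem_ZZ.1 h
      exact hy (hZA b hb)
    have h1 : κ y = 0 := by
      simp only [κ]
      rw [if_neg hy']
      unfold cl
      rw [if_neg hy, if_pos ⟨f x, hx, hadj.symm⟩]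
    have h2 : κ x ≠ 0 := by
      simp only [κ]
      rw [if_pos hx]
      split_ifs <;> decide
    rw [h1]; exact h2
  intro x y hxy
  have hG : (GG R Γ Z A col).Adj (f x) (f y) := f.toHom.map_adj hxy
  obtain ⟨hadj, hG⟩ := hG
  rcases hG with ⟨b, b', hb, hb', hR⟩ | h | h | ⟨h1, h2, h3⟩
  · have hbS : b ∈ S := by rw [hS, mem_filter]; exact ⟨mem_univ _, x, hb⟩
    have hbS' : b' ∈ S := by rw [hS, mem_filter]; exact ⟨mem_univ _, y, hb'⟩
    have hne : t b ≠ t b' := by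
      rcases hR with h | h
      · exact ht b hbS b' hbS' h
      · exact (ht b' hbS' b hbS h).symm
    simp only [κ]
    rw [if_pos (mem_ZZ.2 ⟨b, hb⟩), if_pos (mem_ZZ.2 ⟨b', hb'⟩)]
    simp only [htt x b hb, htt y b' hb']
    cases h1 : t b <;> cases h2 : t b' <;> simp_all
  · exact key x y h.1 h.2 hadj
  · exact (key y x h.1 h.2 hadj.symm).symm
  · simp only [κ]
    rw [if_neg h1, if_neg h2]
    exact h3

/-- non-colourability -/
theorem GG_not_colorable {C s : ℕ} (hC : 1 ≤ C)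
    (R : Fin k → Fin k → Prop) (hirr : ∀ x, ¬ R x x)
    (hcol : ¬ ∃ f : Fin k → Fin C, ∀ x y, R x y → f x ≠ f y)
    (Γ : SimpleGraph (Fin n)) (Z : Fin k → Finset (Fin n)) (A : Finset (Fin n))
    (col : Fin n → Fin 3) (hZcard : ∀ b, C * s ≤ (Z b).card)
    (hole : ∀ b b', b ≠ b' → ∀ T ⊆ Z b, ∀ T' ⊆ Z b', T.card = s → T'.card = s →
      ∃ u ∈ T, ∃ v ∈ T', Γ.Adj u v) :
    ¬ (GG R Γ Z A col).Colorable C := by
  rintro ⟨κ⟩
  apply hcol
  have hpig : ∀ b, ∃ y : Fin C, s ≤ ((Z b).filter (fun x => κ x = y)).card := by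
    intro b
    obtain ⟨y, _, hy⟩ := Finset.exists_le_card_fiber_of_mul_le_card_of_maps_to
      (s := Z b) (t := (univ : Finset (Fin C))) (f := fun x => κ x) (n := s)
      (fun a _ => mem_univ _) ⟨⟨0, hC⟩, mem_univ _⟩ (by simpa using hZcard b)
    exact ⟨y, hy⟩
  choose F hF using hpig
  refine ⟨F, ?_⟩
  intro b b' hR heq
  have hbb' : b ≠ b' := by rintro rfl; exact hirr _ hR
  obtain ⟨T, hT, hTc⟩ := Finset.exists_subset_card_eq (hF b)
  obtain ⟨T', hT', hTc'⟩ := Finset.exists_subset_card_eq (hF b')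
  obtain ⟨u, hu, v, hv, hadj⟩ := hole b b' hbb' T (hT.trans (filter_subset _ _)) T'
    (hT'.trans (filter_subset _ _)) hTc hTc'
  have hu' := mem_filter.1 (hT hu)
  have hv' := mem_filter.1 (hT' hv)
  have hG : (GG R Γ Z A col).Adj u v := ⟨hadj, Or.inl ⟨b, b', hu'.1, hv'.1, Or.inl hR⟩⟩
  exact κ.valid hG (by rw [hu'.2, hv'.2, heq])

/-- minimum degree -/
theorem GG_degree {a w D : ℝ} (_ha : 0 ≤ a) (hw : 0 ≤ w) (hD : D ≤ 2 * a - w)
    (R : Fin k → Fin k → Prop)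
    (Γ : SimpleGraph (Fin n)) (Z : Fin k → Finset (Fin n)) (A : Finset (Fin n))
    (col : Fin n → Fin 3) (hZA : ∀ b, Z b ⊆ A)
    (hdeg : ∀ v, ∀ i, a ≤ (({u | u ∉ A ∧ col u = i ∧ Γ.Adj v u} : Set (Fin n)).ncard : ℝ))
    (hW : ∀ v, v ∉ A → (({u | u ∉ A ∧ Γ.Adj v u ∧
      ∃ z ∈ ZZ Z, Γ.Adj u z} : Set (Fin n)).ncard : ℝ) ≤ w) (v : Fin n) :
    D ≤ (((GG R Γ Z A col).neighborSet v).ncard : ℝ) := by
  have hZZA : ∀ v, v ∉ A → v ∉ ZZ Z := by
    intro v hv h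
    obtain ⟨b, hb⟩ := mem_ZZ.1 h
    exact hv (hZA b hb)
  -- a general lower bound
  have gen : ∀ (P : Set (Fin n)), P ⊆ (GG R Γ Z A col).neighborSet v →
      (P.ncard : ℝ) ≤ (((GG R Γ Z A col).neighborSet v).ncard : ℝ) := by
    intro P hP
    exact_mod_cast Set.ncard_le_ncard hP (Set.toFinite _)
  have two : ∀ i j : Fin 3, i ≠ j → 2 * a ≤ (({u | u ∉ A ∧ (col u = i ∨ col u = j) ∧
      Γ.Adj v u} : Set (Fin n)).ncard : ℝ) := by
    intro i j hij
    have h1 : ({u | u ∉ A ∧ (col u = i ∨ col u = j) ∧ Γ.Adj v u} : Set (Fin n)) =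
        {u | u ∉ A ∧ col u = i ∧ Γ.Adj v u} ∪ {u | u ∉ A ∧ col u = j ∧ Γ.Adj v u} := by
      ext u; simp only [Set.mem_ofPred_eq, Set.mem_union]; tauto
    rw [h1, Set.ncard_union_eq _ (Set.toFinite _) (Set.toFinite _)]
    · push_cast
      linarith [hdeg v i, hdeg v j]
    · rw [Set.disjoint_left]
      intro u hu hu'
      simp only [Set.mem_ofPred_eq] at hu hu'
      exact hij (hu.2.1.symm.trans hu'.2.1)
  have hclu : ∀ u, u ∉ A → cl Γ Z A col u = 0 ∨ cl Γ Z A col u = col u := by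
    intro u hu
    unfold cl
    rw [if_neg hu]
    split_ifs
    · left; rfl
    · right; rfl
  -- the adjacency used outside `Z`
  have adj_of : ∀ u, v ∉ ZZ Z → u ∉ A → Γ.Adj v u → cl Γ Z A col v ≠ cl Γ Z A col u →
      u ∈ (GG R Γ Z A col).neighborSet v := by
    intro u hvZ hu hadj hne
    exact ⟨hadj, Or.inr (Or.inr (Or.inr ⟨hvZ, hZZA u hu, hne⟩))⟩
  have h120 : ∀ x y : Fin 3, (y = 0 ∨ y = x) → (x = 0 ∨ x = 2) → (1 : Fin 3) ≠ y := by decide
  have h201 : ∀ x y : Fin 3, (y = 0 ∨ y = x) → (x = 0 ∨ x = 1) → (2 : Fin 3) ≠ y := by decide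
  have h012 : ∀ x : Fin 3, (x = 1 ∨ x = 2) → (0 : Fin 3) ≠ x := by decide
  have hall : ∀ x : Fin 3, x = 0 ∨ x = 1 ∨ x = 2 := by decide
  by_cases hvZ : v ∈ ZZ Z
  · refine le_trans (by linarith) ((two 0 1 (by decide)).trans (gen _ ?_))
    rintro u ⟨hu, _, hadj⟩
    exact ⟨hadj, Or.inr (Or.inl ⟨hvZ, hu⟩)⟩
  · rcases hall (cl Γ Z A col v) with hc | hc | hc
    · have hvA : v ∉ A := by
        intro h
        have : cl Γ Z A col v = 1 := by unfold cl; rw [if_pos h]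
        rw [this] at hc
        exact absurd hc (by decide)
      have h1 : ({u | u ∉ A ∧ (col u = 1 ∨ col u = 2) ∧ Γ.Adj v u} : Set (Fin n)) ⊆
          {u | u ∉ A ∧ (col u = 1 ∨ col u = 2) ∧ Γ.Adj v u ∧ ¬ ∃ z ∈ ZZ Z, Γ.Adj u z} ∪
          {u | u ∉ A ∧ Γ.Adj v u ∧ ∃ z ∈ ZZ Z, Γ.Adj u z} := by
        intro u hu
        simp only [Set.mem_ofPred_eq, Set.mem_union] at hu ⊢
        by_cases hz : ∃ z ∈ ZZ Z, Γ.Adj u z
        · right; exact ⟨hu.1, hu.2.2, hz⟩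
        · left; exact ⟨hu.1, hu.2.1, hu.2.2, hz⟩
      have h3 := (Set.ncard_le_ncard h1 (Set.toFinite _)).trans (Set.ncard_union_le _ _)
      have h4 : (({u | u ∉ A ∧ (col u = 1 ∨ col u = 2) ∧ Γ.Adj v u} : Set (Fin n)).ncard : ℝ) ≤
          (({u | u ∉ A ∧ (col u = 1 ∨ col u = 2) ∧ Γ.Adj v u ∧
            ¬ ∃ z ∈ ZZ Z, Γ.Adj u z} : Set (Fin n)).ncard : ℝ) +
          (({u | u ∉ A ∧ Γ.Adj v u ∧ ∃ z ∈ ZZ Z, Γ.Adj u z} : Set (Fin n)).ncard : ℝ) := by
        exact_mod_cast h3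
      have h5 := two 1 2 (by decide)
      have h6 := hW v hvA
      refine le_trans (b := (({u | u ∉ A ∧ (col u = 1 ∨ col u = 2) ∧ Γ.Adj v u ∧
            ¬ ∃ z ∈ ZZ Z, Γ.Adj u z} : Set (Fin n)).ncard : ℝ)) (by linarith) (gen _ ?_)
      rintro u ⟨hu, hcu, hadj, hnW⟩
      apply adj_of u hvZ hu hadj
      rw [hc]
      unfold cl
      rw [if_neg hu, if_neg hnW]
      exact h012 _ hcu
    · refine le_trans (by linarith) ((two 0 2 (by decide)).trans (gen _ ?_))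
      rintro u ⟨hu, hcu, hadj⟩
      apply adj_of u hvZ hu hadj
      rw [hc]
      exact h120 _ _ (hclu u hu) hcu
    · refine le_trans (by linarith) ((two 0 1 (by decide)).trans (gen _ ?_))
      rintro u ⟨hu, hcu, hadj⟩
      apply adj_of u hvZ hu hadj
      rw [hc]
      exact h201 _ _ (hclu u hu) hcu

end Pool.Agent.Helper63.Chrom
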