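import Mathlib
import Pool.Agent.Helper63.Chrom.Deg
import Pool.Agent.Helper63.Chrom.Det

/-!
Putting the two rounds together.
-/

set_option autoImplicit false

namespace Pool.Agent.Helper63.Chrom

open Finset Classical

/-- the event that a spanning `H`-free subgraph of minimum degree at least `d` which is not
`C`-colourable exists -/
def Bad {n kH : ℕ} (H : SimpleGraph (Fin kH)) (d : ℝ) (C : ℕ) (Γ : SimpleGraph (Fin n)) : Prop :=
  ∃ G : SimpleGraph (Fin n), G ≤ Γ ∧ ¬ H.IsContained G ∧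
    (∀ v, d ≤ ((G.neighborSet v).ncard : ℝ)) ∧ ¬ G.Colorable C

theorem combine {n k kH : ℕ} (H : SimpleGraph (Fin kH)) (hH : ¬ H.Colorable 3)
    (R : Fin k → Fin k → Prop) (hirr : ∀ x, ¬ R x x) {p : ℝ} (hp : 0 ≤ p) (hp' : p ≤ 1)
    {C s c : ℕ} (hcol : ¬ ∃ f : Fin k → Fin C, ∀ x y, R x y → f x ≠ f y)
    (hloc : ∀ S : Finset (Fin k), S.card ≤ kH → ∃ t : Fin k → Bool,
        ∀ x ∈ S, ∀ y ∈ S, R x y → t x ≠ t y)
    (hC : 1 ≤ C) (hs : 1 ≤ s) (V : Fin k → Finset (Fin n))
    (hdisj : ∀ j j' : Fin k, j ≠ j' → Disjoint (V j) (V j'))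
    {q : ℝ} (hq0 : 0 ≤ q)
    (hq : ((C * s - s).choose c : ℝ) ≤ q * ((C * s).choose c : ℝ))
    (hg0 : 0 < g1 p C s c) (hg1 : g1 p C s c ≤ 1)
    (hN : ∀ j, 8 * (C : ℝ) * s ≤ g1 p C s c ^ k * (V j).card)
    (hqL : q * (8 * C) * Real.exp (C + 2) ≤ 1) {ε : ℝ} (hε : (k + 1) * Real.exp (-s) ≤ ε)
    (hε1 : ε ≤ 1)
    (A : Finset (Fin n)) (hA : A = AA V k) (col : Fin n → Fin 3) {δ M : ℝ} (h0 : 0 < δ) (h1 : δ < 1)
    (hM0 : 0 ≤ M)
    (hM : ∀ v i, M ≤ ((univ.filter (fun u => u ∉ A ∧ col u = i ∧ u ≠ v)).card : ℝ))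
    (hδ : 2 * p * (k * C * s) ≤ δ / 2) {d : ℝ} (hd : d ≤ 2 * ((1 - δ) * p * M) - δ * p * n)
    {ε₂ : ℝ} (hε₂ : 3 * n * Real.exp (- (kap δ * p * M)) + n * Real.exp (- (δ / 2 * p * n)) ≤ ε₂)
    (hε₂1 : ε₂ ≤ 1) :
    (1 - ε₂) * (1 - k * ε) ≤ PP p (ins (univ : Finset (Fin n)))
      (fun S => Bad H d C (SimpleGraph.fromEdgeSet (S : Set (Sym2 (Fin n))))) := by
  have hU : ins A ∪ (ins (univ : Finset (Fin n)) \ ins A) = ins univ :=
    union_sdiff_of_subset (ins_mono (subset_univ _))
  have hseq := seq hp hp' hC hs V hdisj hq0 hq hg0 hg1 hN hqL hε hε1 k le_rfl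
  rw [← hA] at hseq
  have hmain : (1 - ε₂) * PP p (ins A) (Ev C s V k) ≤ PP p (ins A ∪ (ins univ \ ins A))
      (fun S => Bad H d C (SimpleGraph.fromEdgeSet (S : Set (Sym2 (Fin n))))) := by
    apply PP_seq hp hp' disjoint_sdiff
    rintro S hS ⟨Z, hZ, hHF⟩
    have hZV : ∀ j, Z j ⊆ V j := fun j => (hZ j j.2).1
    have hZc : ∀ j, (Z j).card = C * s := fun j => (hZ j j.2).2
    have hVA : ∀ j, V j ⊆ A := by
      intro j v hv
      rw [hA, mem_AA]
      exact ⟨j, j.2, hv⟩
    have hZA : ∀ j, Z j ⊆ A := fun j => (hZV j).trans (hVA j)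
    have hZZA : ZZ Z ⊆ A := by
      intro v hv
      obtain ⟨b, hb⟩ := mem_ZZ.1 hv
      exact hZA b hb
    have hZZc : ((ZZ Z).card : ℝ) ≤ k * C * s := by
      have h2 : (ZZ Z).card ≤ ∑ j : Fin k, (Z j).card := card_biUnion_le
      have h3 : ∑ j : Fin k, (Z j).card = k * (C * s) := by
        rw [sum_congr rfl (fun j _ => hZc j), sum_const, card_univ, Fintype.card_fin, smul_eq_mul]
      rw [h3] at h2
      calc ((ZZ Z).card : ℝ) ≤ ((k * (C * s) : ℕ) : ℝ) := by exact_mod_cast h2
        _ = k * C * s := by push_cast; ring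
    -- the bad events of the second round
    set t1 := (1 - δ) * p * M with ht1
    have hfail : PP p (ins (univ : Finset (Fin n)) \ ins A) (fun T =>
        (∃ v ∈ (univ : Finset (Fin n)), ∃ i ∈ (univ : Finset (Fin 3)),
          (((univ.filter (fun u => u ∉ A ∧ col u = i ∧ u ≠ v)).filter
            (fun u => s(v, u) ∈ T)).card : ℝ) ≤ t1) ∨
        (∃ v ∈ univ.filter (fun v => v ∉ A),
          δ * p * n ≤ (((univ.filter (fun u => u ∉ A ∧ u ≠ v)).filter
            (fun u => s(v, u) ∈ T ∧ ∃ z ∈ ZZ Z, s(u, z) ∈ T)).card : ℝ))) ≤ ε₂ := by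
      refine (PP_or hp hp' _ _).trans (le_trans (add_le_add ?_ ?_) hε₂)
      · refine (PP_union_bound hp hp' _ _).trans ?_
        calc ∑ v ∈ (univ : Finset (Fin n)), PP p (ins (univ : Finset (Fin n)) \ ins A)
              (fun T => ∃ i ∈ (univ : Finset (Fin 3)),
              (((univ.filter (fun u => u ∉ A ∧ col u = i ∧ u ≠ v)).filter
              (fun u => s(v, u) ∈ T)).card : ℝ) ≤ t1)
            ≤ ∑ _v ∈ (univ : Finset (Fin n)), 3 * Real.exp (- (kap δ * p * M)) := by
              apply sum_le_sum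
              intro v _
              refine (PP_union_bound hp hp' _ _).trans ?_
              calc _ ≤ ∑ _i ∈ (univ : Finset (Fin 3)), Real.exp (- (kap δ * p * M)) := by
                    apply sum_le_sum
                    intro i _
                    exact deg_bound hp hp' A col h0 h1 v i (hM v i)
                _ = 3 * Real.exp (- (kap δ * p * M)) := by
                    rw [sum_const, card_univ, Fintype.card_fin, nsmul_eq_mul]
                    push_cast; rfl
          _ = 3 * n * Real.exp (- (kap δ * p * M)) := by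
              rw [sum_const, card_univ, Fintype.card_fin, nsmul_eq_mul]
              ring
      · refine (PP_union_bound hp hp' _ _).trans ?_
        calc _ ≤ ∑ _v ∈ univ.filter (fun v => v ∉ A), Real.exp (- (δ / 2 * p * n)) := by
              apply sum_le_sum
              intro v hv
              apply W_bound hp hp' A (ZZ Z) hZZA _ v (mem_filter.1 hv).2
              refine le_trans ?_ hδ
              apply mul_le_mul_of_nonneg_left hZZc (by positivity)
          _ ≤ n * Real.exp (- (δ / 2 * p * n)) := by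
              rw [sum_const, nsmul_eq_mul]
              apply mul_le_mul_of_nonneg_right _ (Real.exp_pos _).le
              have : (univ.filter (fun v => v ∉ A)).card ≤ (univ : Finset (Fin n)).card :=
                card_le_card (filter_subset _ _)
              rw [card_fin] at this
              exact_mod_cast this
    have hcompl := PP_compl p (ins (univ : Finset (Fin n)) \ ins A) (fun T =>
        (∃ v ∈ (univ : Finset (Fin n)), ∃ i ∈ (univ : Finset (Fin 3)),
          (((univ.filter (fun u => u ∉ A ∧ col u = i ∧ u ≠ v)).filter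
            (fun u => s(v, u) ∈ T)).card : ℝ) ≤ t1) ∨
        (∃ v ∈ univ.filter (fun v => v ∉ A),
          δ * p * n ≤ (((univ.filter (fun u => u ∉ A ∧ u ≠ v)).filter
            (fun u => s(v, u) ∈ T ∧ ∃ z ∈ ZZ Z, s(u, z) ∈ T)).card : ℝ)))
    refine le_trans (b := PP p (ins (univ : Finset (Fin n)) \ ins A) (fun T => ¬ (
        (∃ v ∈ (univ : Finset (Fin n)), ∃ i ∈ (univ : Finset (Fin 3)),
          (((univ.filter (fun u => u ∉ A ∧ col u = i ∧ u ≠ v)).filter
            (fun u => s(v, u) ∈ T)).card : ℝ) ≤ t1) ∨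
        (∃ v ∈ univ.filter (fun v => v ∉ A),
          δ * p * n ≤ (((univ.filter (fun u => u ∉ A ∧ u ≠ v)).filter
            (fun u => s(v, u) ∈ T ∧ ∃ z ∈ ZZ Z, s(u, z) ∈ T)).card : ℝ)))))
      (by rw [hcompl]; linarith) ?_
    apply PP_mono hp hp'
    intro T hT hnot
    push Not at hnot
    obtain ⟨hn1, hn2⟩ := hnot
    -- apply the deterministic part
    set Γ := SimpleGraph.fromEdgeSet (((S ∪ T : Finset (Sym2 (Fin n))) : Set (Sym2 (Fin n))))
      with hΓ
    have hadj : ∀ u v, Γ.Adj u v ↔ s(u, v) ∈ S ∪ T ∧ u ≠ v := by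
      intro u v
      rw [hΓ, SimpleGraph.fromEdgeSet_adj]
      simp
    have hout : ∀ u v, v ∉ A → s(u, v) ∈ S ∪ T → s(u, v) ∈ T := by
      intro u v hv h
      rcases mem_union.1 h with h | h
      · have h2 := hS h
        rw [mem_ins] at h2
        exact absurd h2.2.2 hv
      · exact h
    have hdisjZ : ∀ b b', ∀ v, v ∈ Z b → v ∈ Z b' → b = b' := by
      intro b b' v hb hb'
      by_contra hne
      exact disjoint_left.1 (hdisj b b' hne) (hZV b hb) (hZV b' hb')
    refine ⟨GG R Γ Z A col, GG_le _ _ _ _ _, GG_free H hH R hloc Γ Z A col hZA hdisjZ, ?_, ?_⟩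
    · intro v
      apply GG_degree (a := t1) (w := δ * p * n) _ _ hd R Γ Z A col hZA
      · intro v i
        have h2 := hn1 v (mem_univ _) i (mem_univ _)
        refine h2.le.trans ?_
        rw [← Set.ncard_coe_finset]
        have h3 : ((((univ.filter (fun u => u ∉ A ∧ col u = i ∧ u ≠ v)).filter
            (fun u => s(v, u) ∈ T)) : Finset (Fin n)) : Set (Fin n)) ⊆
            {u | u ∉ A ∧ col u = i ∧ Γ.Adj v u} := by
          intro u hu
          rw [mem_coe, mem_filter, mem_filter] at hu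
          refine ⟨hu.1.2.1, hu.1.2.2.1, ?_⟩
          rw [hadj]
          exact ⟨mem_union_right _ hu.2, fun h => hu.1.2.2.2 h.symm⟩
        exact_mod_cast Set.ncard_le_ncard h3 (Set.toFinite _)
      · intro v hv
        have h2 := hn2 v (mem_filter.2 ⟨mem_univ _, hv⟩)
        refine le_trans ?_ h2.le
        rw [← Set.ncard_coe_finset]
        have h3 : {u | u ∉ A ∧ Γ.Adj v u ∧ ∃ z ∈ ZZ Z, Γ.Adj u z} ⊆
            ((((univ.filter (fun u => u ∉ A ∧ u ≠ v)).filter
            (fun u => s(v, u) ∈ T ∧ ∃ z ∈ ZZ Z, s(u, z) ∈ T)) : Finset (Fin n)) :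
              Set (Fin n)) := by
          rintro u ⟨hu, hvu, z, hz, huz⟩
          rw [hadj] at hvu huz
          rw [mem_coe, mem_filter, mem_filter]
          refine ⟨⟨mem_univ _, hu, fun h => hvu.2 h.symm⟩, hout _ _ hu hvu.1, z, hz, ?_⟩
          rw [Sym2.eq_swap]
          apply hout _ _ hu
          rw [Sym2.eq_swap]
          exact huz.1
        exact_mod_cast Set.ncard_le_ncard h3 (Set.toFinite _)
      · rw [ht1]
        have : 0 ≤ 1 - δ := by linarith
        positivity
      · positivity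
    · apply GG_not_colorable (s := s) hC R hirr hcol Γ Z A col (fun b => (hZc b).ge)
      intro b b' hne T' hT' T'' hT'' hc1 hc2
      obtain ⟨u, hu, v, hv, h2⟩ := hHF b b' b.2 b'.2 hne T' hT' T'' hT'' hc1 hc2
      refine ⟨u, hu, v, hv, ?_⟩
      rw [hadj]
      refine ⟨mem_union_left _ h2, ?_⟩
      rintro rfl
      exact hne (hdisjZ b b' u (hT' hu) (hT'' hv))
  rw [hU] at hmain
  refine le_trans ?_ hmain
  exact mul_le_mul_of_nonneg_left hseq (by linarith)

end Pool.Agent.Helper63.Chrom
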