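import Mathlib
import Pool.Agent.Helper63.Chrom.Combine

/-!
Sums over all graphs on `Fin n` as expectations; a cycle inside a graph that is not bipartite.
-/

set_option autoImplicit false

namespace Pool.Agent.Helper63.Chrom

open Finset Classical

theorem cycleGraph_edges (m : ℕ) : (SimpleGraph.cycleGraph (m + 3)).edgeSet.ncard = m + 3 := by
  have h1 := (SimpleGraph.cycleGraph (m + 3)).sum_degrees_eq_twice_card_edges
  have h2 : ∀ v : Fin (m + 3), (SimpleGraph.cycleGraph (m + 3)).degree v = 2 := by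
    intro v
    have h3 := SimpleGraph.cycleGraph_degree_three_le (n := m) (v := v)
    rw [← h3]
  rw [sum_congr rfl (fun v _ => h2 v), sum_const, card_univ, Fintype.card_fin, smul_eq_mul] at h1
  rw [← SimpleGraph.coe_edgeFinset, Set.ncard_coe_finset]
  omega

theorem exists_cycle_subgraph {k : ℕ} (H : SimpleGraph (Fin k)) (hH : ¬ H.Colorable 2) :
    ∃ F : H.Subgraph, ∃ ℓ : ℕ, 3 ≤ ℓ ∧ F.verts.ncard = ℓ ∧ F.edgeSet.ncard = ℓ := by
  have h1 : ¬ H.IsAcyclic := fun h => hH h.colorable_two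
  rw [SimpleGraph.isAcyclic_iff_free_cycleGraph] at h1
  push Not at h1
  obtain ⟨ℓ, hℓ, hc⟩ := h1
  obtain ⟨f⟩ := hc
  obtain ⟨m, rfl⟩ := Nat.exists_eq_add_of_le' hℓ
  have hinj : Function.Injective (f : Fin (m + 3) → Fin k) := f.injective
  refine ⟨f.toSubgraph, m + 3, hℓ, ?_, ?_⟩
  · have h2 : f.toSubgraph.verts = f '' Set.univ := by
      ext v
      simp [SimpleGraph.Copy.toSubgraph]
    rw [h2, Set.ncard_image_of_injective _ hinj, Set.ncard_univ, Nat.card_eq_fintype_card,
      Fintype.card_fin]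
  · have h2 : f.toSubgraph.edgeSet = Sym2.map f '' (SimpleGraph.cycleGraph (m + 3)).edgeSet := by
      have := SimpleGraph.Subgraph.edgeSet_map f.toHom (⊤ : (SimpleGraph.cycleGraph (m + 3)).Subgraph)
      rw [SimpleGraph.Subgraph.edgeSet_top] at this
      exact this
    rw [h2, Set.ncard_image_of_injective _ (Sym2.map.injective hinj), cycleGraph_edges]

theorem card_ins_univ (n : ℕ) : (ins (univ : Finset (Fin n))).card = n.choose 2 := by
  have h1 := Sym2.card_subtype_not_diag (α := Fin n)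
  rw [Fintype.card_fin] at h1
  rw [← h1, Fintype.card_subtype]
  congr 1
  ext e
  unfold ins
  simp

theorem fromEdgeSet_mem {n : ℕ} (Γ : SimpleGraph (Fin n)) :
    Γ.edgeFinset ∈ (ins (univ : Finset (Fin n))).powerset := by
  rw [mem_powerset]
  intro e he
  rw [SimpleGraph.mem_edgeFinset] at he
  unfold ins
  rw [mem_filter]
  exact ⟨mem_univ _, Γ.not_isDiag_of_mem_edgeSet he, fun x _ => mem_univ x⟩

theorem edgeFinset_fromEdgeSet {n : ℕ} {S : Finset (Sym2 (Fin n))}
    (hS : S ∈ (ins (univ : Finset (Fin n))).powerset) :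
    (SimpleGraph.fromEdgeSet (S : Set (Sym2 (Fin n)))).edgeFinset = S := by
  rw [mem_powerset] at hS
  ext e
  rw [SimpleGraph.mem_edgeFinset, SimpleGraph.edgeSet_fromEdgeSet]
  constructor
  · intro h; exact h.1
  · intro h
    refine ⟨h, ?_⟩
    have := hS h
    unfold ins at this
    rw [mem_filter] at this
    exact this.2.1

/-- the weighted sum over all graphs as a probability -/
theorem sum_graph (p : ℝ) (n : ℕ) (P : SimpleGraph (Fin n) → Prop) [DecidablePred P] :
    (∑ Γ : SimpleGraph (Fin n), if P Γ then p ^ Γ.edgeSet.ncard *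
      (1 - p) ^ (n.choose 2 - Γ.edgeSet.ncard) else 0) =
    PP p (ins (univ : Finset (Fin n)))
      (fun S => P (SimpleGraph.fromEdgeSet (S : Set (Sym2 (Fin n))))) := by
  unfold PP EE
  refine sum_bij' (fun Γ _ => Γ.edgeFinset)
    (fun S _ => SimpleGraph.fromEdgeSet (S : Set (Sym2 (Fin n)))) ?_ ?_ ?_ ?_ ?_
  · intro Γ _
    exact fromEdgeSet_mem Γ
  · intro S _
    exact mem_univ _
  · intro Γ _
    rw [SimpleGraph.coe_edgeFinset, SimpleGraph.fromEdgeSet_edgeSet]
  · intro S hS
    refine Eq.trans ?_ (edgeFinset_fromEdgeSet hS)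
    exact congrArg (fun i => @SimpleGraph.edgeFinset (Fin n)
      (SimpleGraph.fromEdgeSet (S : Set (Sym2 (Fin n)))) i) (Subsingleton.elim _ _)
  · intro Γ _
    have h1 : Γ.edgeSet.ncard = Γ.edgeFinset.card := by
      rw [← SimpleGraph.coe_edgeFinset, Set.ncard_coe_finset]
    have h2 : SimpleGraph.fromEdgeSet (Γ.edgeFinset : Set (Sym2 (Fin n))) = Γ := by
      rw [SimpleGraph.coe_edgeFinset, SimpleGraph.fromEdgeSet_edgeSet]
    beta_reduce
    rw [h1, card_ins_univ, h2]
    by_cases h : P Γ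
    · rw [if_pos h, if_pos h, mul_one]
    · rw [if_neg h, if_neg h, mul_zero]

end Pool.Agent.Helper63.Chrom
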