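import Mathlib
import Pool.Agent.Helper63.Chrom.Link
import Pool.Agent.Helper63.Chrom.Arc

/-!
Choice of the parameters.
-/

set_option autoImplicit false

namespace Pool.Agent.Helper63.Chrom

open Finset Classical

section blocks

variable {n : ℕ}

/-- an interval of vertices -/
noncomputable def blk (n a b : ℕ) : Finset (Fin n) :=
  univ.filter (fun u => a ≤ u.val ∧ u.val < b)

theorem mem_blk {a b : ℕ} {u : Fin n} : u ∈ blk n a b ↔ a ≤ u.val ∧ u.val < b := by
  unfold blk; rw [mem_filter]; simp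

theorem card_blk {a b : ℕ} (hb : b ≤ n) : (blk n a b).card = b - a := by
  have h : (blk n a b).map Fin.valEmbedding = Finset.Ico a b := by
    ext x
    rw [mem_map, mem_Ico]
    constructor
    · rintro ⟨u, hu, rfl⟩
      exact mem_blk.1 hu
    · rintro ⟨h1, h2⟩
      exact ⟨⟨x, by omega⟩, mem_blk.2 ⟨h1, h2⟩, rfl⟩
  rw [← card_map Fin.valEmbedding, h, Nat.card_Ico]

end blocks

/-- ratio of binomial coefficients -/
theorem descFactorial_ratio (C s c : ℕ) (hC : 1 ≤ C) :
    (C * s - s).descFactorial c * C ^ c ≤ (C - 1) ^ c * (C * s).descFactorial c := by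
  induction c with
  | zero => simp
  | succ c ih =>
    rw [Nat.descFactorial_succ, Nat.descFactorial_succ, pow_succ, pow_succ]
    have h1 : (C * s - s - c) * C ≤ (C - 1) * (C * s - c) := by
      obtain ⟨D, rfl⟩ := Nat.exists_eq_add_of_le' hC
      have e1 : (D + 1) * s - s = D * s := by
        rw [Nat.add_mul, one_mul, Nat.add_sub_cancel]
      rw [e1, Nat.add_sub_cancel]
      rcases Nat.lt_or_ge (D * s) c with h | h
      · rw [Nat.sub_eq_zero_of_le h.le]; simp
      · obtain ⟨w, hw⟩ := Nat.exists_eq_add_of_le h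
        have e2 : D * s - c = w := by omega
        have e3 : (D + 1) * s - c = w + s := by
          rw [Nat.add_mul, one_mul]; omega
        rw [e2, e3]
        have : w ≤ D * s := by omega
        linarith only [hw]
    calc (C * s - s - c) * (C * s - s).descFactorial c * (C ^ c * C)
        = ((C * s - s - c) * C) * ((C * s - s).descFactorial c * C ^ c) := by ring
      _ ≤ ((C - 1) * (C * s - c)) * ((C - 1) ^ c * (C * s).descFactorial c) :=
          Nat.mul_le_mul h1 ih
      _ = (C - 1) ^ c * (C - 1) * ((C * s - c) * (C * s).descFactorial c) := by ring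

theorem choose_ratio (C s c : ℕ) (hC : 1 ≤ C) :
    ((C * s - s).choose c : ℝ) ≤ (((C : ℝ) - 1) / C) ^ c * ((C * s).choose c : ℝ) := by
  have hC0 : (0 : ℝ) < C := by exact_mod_cast hC
  have h1 := descFactorial_ratio C s c hC
  rw [Nat.descFactorial_eq_factorial_mul_choose, Nat.descFactorial_eq_factorial_mul_choose] at h1
  have h2 : (((c.factorial * (C * s - s).choose c * C ^ c : ℕ)) : ℝ) ≤
      (((C - 1) ^ c * (c.factorial * (C * s).choose c) : ℕ) : ℝ) := by exact_mod_cast h1
  push_cast [Nat.cast_sub hC] at h2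
  have hf : (0 : ℝ) < c.factorial := by exact_mod_cast c.factorial_pos
  rw [div_pow, div_mul_eq_mul_div, le_div_iff₀ (by positivity)]
  have h3 : (c.factorial : ℝ) * (((C * s - s).choose c : ℝ) * (C : ℝ) ^ c) ≤
      (c.factorial : ℝ) * (((C : ℝ) - 1) ^ c * ((C * s).choose c : ℝ)) := by
    calc _ = (c.factorial : ℝ) * ((C * s - s).choose c : ℝ) * (C : ℝ) ^ c := by ring
      _ ≤ ((C : ℝ) - 1) ^ c * ((c.factorial : ℝ) * ((C * s).choose c : ℝ)) := h2
      _ = _ := by ring
  exact le_of_mul_le_mul_left h3 hf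

theorem g1_le_one {p : ℝ} (hp : 0 ≤ p) (hp' : p ≤ 1) (C s c : ℕ) : g1 p C s c ≤ 1 := by
  have h1p : 0 ≤ 1 - p := by linarith
  unfold g1
  rcases Nat.lt_or_ge (C * s) c with h | h
  · rw [Nat.choose_eq_zero_of_lt h]; simp
  · have h1 : (p + (1 - p)) ^ (C * s) = 1 := by
      rw [show p + (1 - p) = 1 by ring, one_pow]
    rw [add_pow] at h1
    have h2 := single_le_sum (f := fun m => p ^ m * (1 - p) ^ (C * s - m) * ((C * s).choose m : ℝ))
      (s := range (C * s + 1)) (fun i _ => by positivity) (mem_range.2 (Nat.lt_succ_of_le h))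
    calc ((C * s).choose c : ℝ) * p ^ c * (1 - p) ^ (C * s - c)
        = p ^ c * (1 - p) ^ (C * s - c) * ((C * s).choose c : ℝ) := by ring
      _ ≤ _ := h2
      _ = 1 := h1

theorem g1_ge {p η : ℝ} (hp : 0 < p) (hp' : p ≤ 1) {C s c : ℕ} (hC : 2 ≤ C) (hsc : c ≤ s)
    (hη : 0 < η) (h1 : η / 2 ≤ p * s) (h2 : p * (C * s) ≤ 1 / 2) :
    (η / 2) ^ c / c.factorial * (1 / 2) ≤ g1 p C s c := by
  have h1p : 0 ≤ 1 - p := by linarith only [hp']
  unfold g1
  have h3 : (s : ℝ) ^ c / c.factorial ≤ ((C * s).choose c : ℝ) := by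
    have h4 := Nat.pow_le_choose (α := ℝ) c (C * s)
    refine le_trans ?_ h4
    apply div_le_div_of_nonneg_right _ (by positivity)
    apply pow_le_pow_left₀ (by positivity)
    have : s ≤ C * s + 1 - c := by
      have : 2 * s ≤ C * s := Nat.mul_le_mul_right _ hC
      omega
    exact_mod_cast this
  have h4 : (1 : ℝ) / 2 ≤ (1 - p) ^ (C * s - c) := by
    have h5 : (1 - p) ^ (C * s) ≤ (1 - p) ^ (C * s - c) :=
      pow_le_pow_of_le_one h1p (by linarith only [hp]) (Nat.sub_le _ _)
    have h6 := one_add_mul_le_pow (a := -p) (by linarith) (C * s)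
    rw [← sub_eq_add_neg] at h6
    push_cast at h6
    linarith only [h2, h5, h6]
  have h5 : (η / 2) ^ c / c.factorial ≤ ((C * s).choose c : ℝ) * p ^ c := by
    calc (η / 2) ^ c / c.factorial ≤ (p * s) ^ c / c.factorial := by
          apply div_le_div_of_nonneg_right _ (by positivity)
          exact pow_le_pow_left₀ (by positivity) h1 _
      _ = ((s : ℝ) ^ c / c.factorial) * p ^ c := by rw [mul_pow]; ring
      _ ≤ _ := mul_le_mul_of_nonneg_right h3 (by positivity)
  calc (η / 2) ^ c / c.factorial * (1 / 2) ≤ ((C * s).choose c : ℝ) * p ^ c * (1 / 2) :=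
        mul_le_mul_of_nonneg_right h5 (by norm_num)
    _ ≤ _ := mul_le_mul_of_nonneg_left h4 (by positivity)

theorem finite_bound {kH : ℕ} (H : SimpleGraph (Fin kH)) (hH : ¬ H.Colorable 3) {C : ℕ}
    (hC : 2 ≤ C) {d : ℝ} (hd0 : 0 ≤ d) (hd : d < 2 / 3) :
    ∃ p₀ > 0, ∃ X b : ℝ, 0 < b ∧ ∀ (n : ℕ) (p : ℝ), 0 < p → p ≤ 1 → p ≤ p₀ → X ≤ p * n →
      n * Real.exp (- (b * (p * n))) ≤ 1 / 16 →
      1 / 2 ≤ PP p (ins (univ : Finset (Fin n)))
      (fun S => Bad H (d * p * n) C (SimpleGraph.fromEdgeSet (S : Set (Sym2 (Fin n))))) := by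
  obtain ⟨k, R, hirr, hcol, hloc⟩ := exists_graph kH C
  have hC0 : (0 : ℝ) < C := by
    have : 0 < C := by omega
    exact_mod_cast this
  have hC2 : (2 : ℝ) ≤ C := by exact_mod_cast hC
  -- δ
  set δ : ℝ := (2 / 3 - d) / 4 with hδ
  have hδ0 : 0 < δ := by rw [hδ]; linarith only [hd]
  have hδ6 : δ ≤ 1 / 6 := by rw [hδ]; linarith only [hd0]
  -- c
  have hbase0 : 0 ≤ ((C : ℝ) - 1) / C := div_nonneg (by linarith only [hC2]) hC0.le
  have hbase1 : ((C : ℝ) - 1) / C < 1 := by
    rw [div_lt_one hC0]; linarith only []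
  obtain ⟨c, hc⟩ := exists_pow_lt_of_lt_one
    (show 0 < 1 / ((8 * (C : ℝ)) * Real.exp (C + 2)) by positivity) hbase1
  have hqL : (((C : ℝ) - 1) / C) ^ c * (8 * C) * Real.exp (C + 2) ≤ 1 := by
    rw [lt_div_iff₀ (by positivity)] at hc
    linarith only [hc]
  -- η
  set η : ℝ := δ / (4 * (k + 1) * C) with hη
  have hη0 : 0 < η := by rw [hη]; positivity
  have hηk : 4 * (k + 1) * C * η = δ := by
    rw [hη]; field_simp
  set g0 : ℝ := (η / 2) ^ c / c.factorial * (1 / 2) with hg0
  have hg0pos : 0 < g0 := by rw [hg0]; positivity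
  set S0 : ℝ := 4 * ((k : ℝ) + 1) ^ 2 + c + 1 with hS0
  have hS0pos : 0 < S0 := by rw [hS0]; positivity
  set K1 : ℝ := 8 * C * η / g0 ^ k with hK1
  have hK1pos : 0 < K1 := by rw [hK1]; positivity
  set b : ℝ := min (kap δ * (1 / 3 - δ)) (δ / 2) with hb
  have hkap : 0 < kap δ := kap_pos hδ0 (by linarith only [hd0, hδ, hδ0])
  have hb0 : 0 < b := by
    rw [hb]
    apply lt_min
    · apply mul_pos hkap; linarith only [hd0, hδ, hδ0]
    · linarith only [hδ0]
  refine ⟨min (η / 2) (η / (S0 + 1)), ?_, (k * K1 + k + 6) / δ, b, hb0, ?_⟩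
  · apply lt_min
    · linarith only [hη0]
    · positivity
  intro n p hp hp1 hpp0 hX hexp
  have hpη : p ≤ η / 2 := hpp0.trans (min_le_left _ _)
  have hpS : p ≤ η / (S0 + 1) := hpp0.trans (min_le_right _ _)
  -- s
  set s : ℕ := ⌊η / p⌋₊ with hs
  have hs1 : (s : ℝ) ≤ η / p := Nat.floor_le (by positivity)
  have hs2 : η / p < s + 1 := Nat.lt_floor_add_one _
  have hps : p * s ≤ η := by
    calc p * s ≤ p * (η / p) := mul_le_mul_of_nonneg_left hs1 hp.le
      _ = η := by field_simp
  have hps2 : η / 2 ≤ p * s := by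
    have h1 : η < p * (s + 1) := by
      rw [div_lt_iff₀ hp] at hs2
      linarith only [hs2]
    linarith only [hpη, h1]
  have hsS0 : S0 ≤ s := by
    have h1 : S0 + 1 ≤ η / p := by
      rw [le_div_iff₀ hp]
      rw [le_div_iff₀ (by positivity)] at hpS
      linarith only [hpS]
    linarith only [hs2, h1]
  have hsc : c ≤ s := by
    have : (c : ℝ) ≤ s := by
      have : (0 : ℝ) ≤ 4 * ((k : ℝ) + 1) ^ 2 := by positivity
      rw [hS0] at hsS0
      linarith only [hd0, hδ, hδ0, hsS0, this]
    exact_mod_cast this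
  have hs_one : 1 ≤ s := by
    have : (1 : ℝ) ≤ s := by
      have : (0 : ℝ) ≤ 4 * ((k : ℝ) + 1) ^ 2 := by positivity
      have : (0 : ℝ) ≤ c := by positivity
      rw [hS0] at hsS0
      linarith
    exact_mod_cast this
  have hk0 : (0 : ℝ) ≤ k := by positivity
  have hpCs : p * (C * s) ≤ 1 / 2 := by
    have h1 : p * (C * s) = C * (p * s) := by ring
    have h2 : C * (p * s) ≤ C * η := mul_le_mul_of_nonneg_left hps hC0.le
    have h3 : C * η ≤ 4 * (k + 1) * C * η := by
      have : 0 ≤ C * η := by positivity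
      nlinarith only [hδ0, hηk, this]
    linarith only [hd0, hδ, hδ0, hηk, h2, h3]
  have hg1ge : g0 ≤ g1 p C s c := g1_ge hp hp1 hC hsc hη0 hps2 hpCs
  have hg1pos : 0 < g1 p C s c := lt_of_lt_of_le hg0pos hg1ge
  have hg1one : g1 p C s c ≤ 1 := g1_le_one hp.le hp1 C s c
  -- block size
  set N : ℕ := ⌈8 * (C : ℝ) * s / g0 ^ k⌉₊ with hN
  have hN1 : 8 * (C : ℝ) * s / g0 ^ k ≤ N := Nat.le_ceil _
  have hN2 : (N : ℝ) < 8 * (C : ℝ) * s / g0 ^ k + 1 := Nat.ceil_lt_add_one (by positivity)
  have hNpos : 0 < N := by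
    have h1 : (0 : ℝ) < s := by exact_mod_cast hs_one
    have h2 : (0 : ℝ) < N := lt_of_lt_of_le (by positivity) hN1
    exact_mod_cast h2
  have hNK : p * N ≤ K1 + 1 := by
    have h1 : p * (8 * (C : ℝ) * s / g0 ^ k) ≤ K1 := by
      rw [hK1]
      calc p * (8 * (C : ℝ) * s / g0 ^ k) = 8 * C * (p * s) / g0 ^ k := by ring
        _ ≤ 8 * C * η / g0 ^ k := by gcongr
    have h2 : p * N ≤ p * (8 * (C : ℝ) * s / g0 ^ k + 1) := mul_le_mul_of_nonneg_left hN2.le hp.le
    linarith only [hp1, h1, h2]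
  have hbig : (k : ℝ) * N + 6 ≤ δ * n := by
    have h1 : k * K1 + k + 6 ≤ δ * (p * n) := by
      rw [div_le_iff₀ hδ0] at hX
      linarith only [hX]
    have h2 : p * ((k : ℝ) * N + 6) ≤ p * (δ * n) := by
      calc p * ((k : ℝ) * N + 6) = k * (p * N) + 6 * p := by ring
        _ ≤ k * (K1 + 1) + 6 := by
            have := mul_le_mul_of_nonneg_left hNK hk0
            linarith only [hp1, this]
        _ ≤ δ * (p * n) := by linarith only [h1]
        _ = p * (δ * n) := by ring
    exact le_of_mul_le_mul_left h2 hp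
  have hn0 : (0 : ℝ) ≤ n := by positivity
  have hkNn : (k : ℝ) * N + 6 ≤ n := by nlinarith only [hd0, hδ, hδ0, hbig]
  have hkNn' : k * N + 6 ≤ n := by exact_mod_cast hkNn
  -- sets
  let V : Fin k → Finset (Fin n) := fun j => blk n (j * N) (j * N + N)
  have hVcard : ∀ j, (V j).card = N := by
    intro j
    have h1 : (j : ℕ) * N + N ≤ k * N := by
      have : (j : ℕ) + 1 ≤ k := j.2
      calc (j : ℕ) * N + N = (j + 1) * N := by ring
        _ ≤ k * N := Nat.mul_le_mul_right _ this
    have h2 := card_blk (n := n) (a := j * N) (b := j * N + N) (by omega)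
    show (blk n (j * N) (j * N + N)).card = N
    rw [h2]; omega
  have hVdisj : ∀ j j' : Fin k, j ≠ j' → Disjoint (V j) (V j') := by
    intro j j' hne
    rw [disjoint_left]
    intro u hu hu'
    rw [mem_blk] at hu hu'
    have hlt : ∀ a b : ℕ, a < b → a * N + N ≤ b * N := by
      intro a b hab
      calc a * N + N = (a + 1) * N := by ring
        _ ≤ b * N := Nat.mul_le_mul_right _ hab
    have hne' : (j : ℕ) ≠ j' := fun h => hne (Fin.ext h)
    rcases Nat.lt_or_gt_of_ne hne' with h | h
    · have := hlt _ _ h; omega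
    · have := hlt _ _ h; omega
  have hAmem : ∀ u : Fin n, u ∈ AA V k ↔ u.val < k * N := by
    intro u
    rw [mem_AA]
    constructor
    · rintro ⟨j, _, hu⟩
      rw [mem_blk] at hu
      have : (j : ℕ) * N + N ≤ k * N := by
        calc (j : ℕ) * N + N = (j + 1) * N := by ring
          _ ≤ k * N := Nat.mul_le_mul_right _ j.2
      omega
    · intro hu
      have h1 : u.val / N < k := (Nat.div_lt_iff_lt_mul hNpos).2 hu
      refine ⟨⟨u.val / N, h1⟩, h1, ?_⟩
      rw [mem_blk]
      have h2 := Nat.div_add_mod u.val N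
      have h3 := Nat.mod_lt u.val hNpos
      have h4 : N * (u.val / N) = (u.val / N) * N := mul_comm _ _
      constructor
      · show (u.val / N) * N ≤ u.val
        omega
      · show u.val < (u.val / N) * N + N
        omega
  set m : ℕ := (n - k * N) / 3 with hm
  let col : Fin n → Fin 3 := fun u =>
    if u.val < k * N + m then 0 else if u.val < k * N + 2 * m then 1 else 2
  have hcount : ∀ (v : Fin n) (i : Fin 3), m - 1 ≤
      (univ.filter (fun u => u ∉ AA V k ∧ col u = i ∧ u ≠ v)).card := by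
    intro v i
    have h1 : (blk n (k * N + i * m) (k * N + i * m + m)).erase v ⊆
        univ.filter (fun u => u ∉ AA V k ∧ col u = i ∧ u ≠ v) := by
      intro u hu
      rw [mem_erase, mem_blk] at hu
      rw [mem_filter, hAmem]
      refine ⟨mem_univ _, by omega, ?_, hu.1⟩
      simp only [col]
      fin_cases i
      · simp only [Fin.zero_eta, Fin.isValue, zero_mul, add_zero] at hu ⊢
        rw [if_pos (by omega)]
      · simp only [Fin.mk_one, Fin.isValue, one_mul] at hu ⊢
        rw [if_neg (by omega), if_pos (by omega)]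
      · simp only [Fin.reduceFinMk, Fin.isValue] at hu ⊢
        rw [if_neg (by omega), if_neg (by omega)]
    have h2 := card_le_card h1
    have h3 : (blk n (k * N + i * m) (k * N + i * m + m)).card = m := by
      rw [card_blk]
      · omega
      · have h4 : (i : ℕ) ≤ 2 := by omega
        have h5 : (i : ℕ) * m ≤ 2 * m := Nat.mul_le_mul_right _ h4
        omega
    have h4 : m - 1 ≤ ((blk n (k * N + i * m) (k * N + i * m + m)).erase v).card := by
      have h5 := pred_card_le_card_erase (s := blk n (k * N + i * m) (k * N + i * m + m)) (a := v)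
      rwa [h3] at h5
    exact h4.trans h2
  have hM : ∀ (v : Fin n) (i : Fin 3), (1 / 3 - δ) * n ≤
      ((univ.filter (fun u => u ∉ AA V k ∧ col u = i ∧ u ≠ v)).card : ℝ) := by
    intro v i
    have h1 : ((m - 1 : ℕ) : ℝ) ≤
        ((univ.filter (fun u => u ∉ AA V k ∧ col u = i ∧ u ≠ v)).card : ℝ) := by
      exact_mod_cast hcount v i
    refine le_trans ?_ h1
    have h2 : n ≤ k * N + 3 * (m - 1) + 5 := by omega
    have h3 : (n : ℝ) ≤ k * N + 3 * ((m - 1 : ℕ) : ℝ) + 5 := by exact_mod_cast h2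
    have h4 : 0 ≤ δ * n := by positivity
    linarith only [hd0, hδ, hδ0, hbig, h3, h4]
  -- apply the main estimate
  have hmain := combine H hH R hirr hp.le hp1 (s := s) (c := c) hcol hloc (by omega) hs_one V hVdisj
    (q := (((C : ℝ) - 1) / C) ^ c) (by positivity) (choose_ratio C s c (by omega)) hg1pos hg1one
    (by
      intro j
      rw [hVcard j]
      have h1 : g0 ^ k ≤ g1 p C s c ^ k := pow_le_pow_left₀ hg0pos.le hg1ge k
      have h2 : 8 * (C : ℝ) * s ≤ g0 ^ k * N := by
        rw [div_le_iff₀ (by positivity)] at hN1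
        linarith only [hN1]
      exact h2.trans (mul_le_mul_of_nonneg_right h1 (by positivity)))
    hqL (ε := 1 / (4 * ((k : ℝ) + 1)))
    (by
      have h1 : (0 : ℝ) < s := by exact_mod_cast hs_one
      have h2 : Real.exp (-s) ≤ 1 / s := by
        rw [Real.exp_neg, one_div]
        apply inv_anti₀ h1
        have := Real.add_one_le_exp (s : ℝ)
        linarith only [this]
      have h3 : (1 : ℝ) / s ≤ 1 / (4 * ((k : ℝ) + 1) ^ 2) := by
        apply one_div_le_one_div_of_le (by positivity)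
        refine le_trans ?_ hsS0
        rw [hS0]
        have : (0 : ℝ) ≤ c := by positivity
        linarith only []
      calc ((k : ℝ) + 1) * Real.exp (-s) ≤ (k + 1) * (1 / (4 * ((k : ℝ) + 1) ^ 2)) :=
            mul_le_mul_of_nonneg_left (h2.trans h3) (by positivity)
        _ = 1 / (4 * ((k : ℝ) + 1)) := by field_simp)
    (by
      rw [div_le_one (by positivity)]
      linarith only [])
    (AA V k) rfl col hδ0 (by linarith only [hd0, hδ, hδ0]) (M := (1 / 3 - δ) * n)
    (by
      apply mul_nonneg _ hn0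
      linarith only [hd0, hδ, hδ0]) hM
    (by
      calc 2 * p * (k * C * s) = 2 * k * C * (p * s) := by ring
        _ ≤ 2 * k * C * η := by gcongr
        _ ≤ 2 * (k + 1) * C * η := by
            have : 0 ≤ C * η := by positivity
            linarith only [this]
        _ = δ / 2 := by linarith only [hηk])
    (d := d * p * n)
    (by
      have h1 : d ≤ 2 * ((1 - δ) * (1 / 3 - δ)) - δ := by
        have h2 : d = 2 / 3 - 4 * δ := by rw [hδ]; ring
        rw [h2]
        nlinarith only [hδ, hδ0, hd0, hd]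
      have h3 : 0 ≤ p * n := by positivity
      have h4 := mul_le_mul_of_nonneg_right h1 h3
      calc d * p * n = d * (p * n) := by ring
        _ ≤ (2 * ((1 - δ) * (1 / 3 - δ)) - δ) * (p * n) := h4
        _ = 2 * ((1 - δ) * p * ((1 / 3 - δ) * n)) - δ * p * n := by ring)
    (ε₂ := 1 / 4)
    (by
      have h3 : 0 ≤ p * n := by positivity
      have h1 : Real.exp (- (kap δ * p * ((1 / 3 - δ) * n))) ≤ Real.exp (- (b * (p * n))) := by
        rw [Real.exp_le_exp]
        have h2 : b ≤ kap δ * (1 / 3 - δ) := min_le_left _ _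
        have h4 := mul_le_mul_of_nonneg_right h2 h3
        linarith only [h4]
      have h2 : Real.exp (- (δ / 2 * p * n)) ≤ Real.exp (- (b * (p * n))) := by
        rw [Real.exp_le_exp]
        have h2 : b ≤ δ / 2 := min_le_right _ _
        have h4 := mul_le_mul_of_nonneg_right h2 h3
        linarith only [h4]
      have h4 : 3 * n * Real.exp (- (kap δ * p * ((1 / 3 - δ) * n))) ≤
          3 * n * Real.exp (- (b * (p * n))) := mul_le_mul_of_nonneg_left h1 (by positivity)
      have h5 : n * Real.exp (- (δ / 2 * p * n)) ≤ n * Real.exp (- (b * (p * n))) :=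
        mul_le_mul_of_nonneg_left h2 (by positivity)
      linarith only [hexp, h4, h5])
    (by norm_num)
  refine le_trans ?_ hmain
  have h1 : (k : ℝ) * (1 / (4 * ((k : ℝ) + 1))) ≤ 1 / 4 := by
    rw [mul_one_div, div_le_iff₀ (by positivity)]
    linarith only []
  linarith only [h1]

end Pool.Agent.Helper63.Chrom
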